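import Pool.Agent.Lib.P99994e.Form

/-!
Bounds for `f x = (x-3)^2 (4-x)^4 (6-x)^3 / x^5` on `[3,4]` and `[4,6]`, and for the integrals.
-/

set_option autoImplicit false

namespace Pool.Agent.Lib.P99994e

open Real

theorem b1a (u v : ℝ) (hu : 0 ≤ u) (hv : 0 ≤ v) (huv : u + v = (13 / 50 : ℝ)) :
    (((3 : ℝ) + u) - 3) ^ 2 * (4 - ((3 : ℝ) + u)) ^ 4 * (6 - ((3 : ℝ) + u)) ^ 3 ≤ (115 / 100000 : ℝ) * ((3 : ℝ) + u) ^ 5 := by
  have hv' : v = (13 / 50 : ℝ) - u := by linarith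
  have h : 0 ≤ (545800781250000 / 10604499373 : ℝ) * (u ^ 0 * v ^ 9) +
      (5148720703125000 / 10604499373 : ℝ) * (u ^ 1 * v ^ 8) +
      (18017089453125000 / 10604499373 : ℝ) * (u ^ 2 * v ^ 7) +
      (32440561945312500 / 10604499373 : ℝ) * (u ^ 3 * v ^ 6) +
      (33351945867890625 / 10604499373 : ℝ) * (u ^ 4 * v ^ 5) +
      (39644602700618125 / 21208998746 : ℝ) * (u ^ 5 * v ^ 4) +
      (6347501752080000 / 10604499373 : ℝ) * (u ^ 6 * v ^ 3) +
      (874077725911875 / 10604499373 : ℝ) * (u ^ 7 * v ^ 2) +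
      (35900126148225 / 10604499373 : ℝ) * (u ^ 8 * v ^ 1) +
      (25173720669571 / 21208998746 : ℝ) * (u ^ 9 * v ^ 0) := by positivity
  rw [hv'] at h
  refine le_of_sub_nonneg (h.trans (le_of_eq ?_))
  ring

theorem b1b (u v : ℝ) (hu : 0 ≤ u) (hv : 0 ≤ v) (huv : u + v = (37 / 50 : ℝ)) :
    (((163 / 50 : ℝ) + u) - 3) ^ 2 * (4 - ((163 / 50 : ℝ) + u)) ^ 4 * (6 - ((163 / 50 : ℝ) + u)) ^ 3 ≤ (115 / 100000 : ℝ) * ((163 / 50 : ℝ) + u) ^ 5 := by
  have hv' : v = (37 / 50 : ℝ) - u := by linarith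
  have h : 0 ≤ (25173720669571 / 259923479590154 : ℝ) * (u ^ 0 * v ^ 9) +
      (333521729474550 / 129961739795077 : ℝ) * (u ^ 1 * v ^ 8) +
      (10639692129646875 / 129961739795077 : ℝ) * (u ^ 2 * v ^ 7) +
      (62118817894361250 / 129961739795077 : ℝ) * (u ^ 3 * v ^ 6) +
      (289230310102493125 / 259923479590154 : ℝ) * (u ^ 4 * v ^ 5) +
      (181644978782187500 / 129961739795077 : ℝ) * (u ^ 5 * v ^ 4) +
      (138994597625000000 / 129961739795077 : ℝ) * (u ^ 6 * v ^ 3) +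
      (66567175000000000 / 129961739795077 : ℝ) * (u ^ 7 * v ^ 2) +
      (18572500000000000 / 129961739795077 : ℝ) * (u ^ 8 * v ^ 1) +
      (2300000000000000 / 129961739795077 : ℝ) * (u ^ 9 * v ^ 0) := by positivity
  rw [hv'] at h
  refine le_of_sub_nonneg (h.trans (le_of_eq ?_))
  ring

theorem b2a (u v : ℝ) (hu : 0 ≤ u) (hv : 0 ≤ v) (huv : u + v = (57 / 50 : ℝ)) :
    (((4 : ℝ) + u) - 3) ^ 2 * (4 - ((4 : ℝ) + u)) ^ 4 * (6 - ((4 : ℝ) + u)) ^ 3 ≤ (138 / 100000 : ℝ) * ((4 : ℝ) + u) ^ 5 := by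
  have hv' : v = (57 / 50 : ℝ) - u := by linarith
  have h : 0 ≤ (920000000000000 / 2117153985128019 : ℝ) * (u ^ 0 * v ^ 9) +
      (3197000000000000 / 705717995042673 : ℝ) * (u ^ 1 * v ^ 8) +
      (14785090000000000 / 705717995042673 : ℝ) * (u ^ 2 * v ^ 7) +
      (39810620650000000 / 705717995042673 : ℝ) * (u ^ 3 * v ^ 6) +
      (65846727567625000 / 705717995042673 : ℝ) * (u ^ 4 * v ^ 5) +
      (62731687884679625 / 705717995042673 : ℝ) * (u ^ 5 * v ^ 4) +
      (9743044771239500 / 235239331680891 : ℝ) * (u ^ 6 * v ^ 3) +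
      (5159158640770250 / 705717995042673 : ℝ) * (u ^ 7 * v ^ 2) +
      (31918449600700 / 705717995042673 : ℝ) * (u ^ 8 * v ^ 1) +
      (20363451610994 / 2117153985128019 : ℝ) * (u ^ 9 * v ^ 0) := by positivity
  rw [hv'] at h
  refine le_of_sub_nonneg (h.trans (le_of_eq ?_))
  ring

theorem b2b (u v : ℝ) (hu : 0 ≤ u) (hv : 0 ≤ v) (huv : u + v = (43 / 50 : ℝ)) :
    (((257 / 50 : ℝ) + u) - 3) ^ 2 * (4 - ((257 / 50 : ℝ) + u)) ^ 4 * (6 - ((257 / 50 : ℝ) + u)) ^ 3 ≤ (138 / 100000 : ℝ) * ((257 / 50 : ℝ) + u) ^ 5 := by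
  have hv' : v = (43 / 50 : ℝ) - u := by linarith
  have h : 0 ≤ (61090354832982 / 502592611936843 : ℝ) * (u ^ 0 * v ^ 9) +
      (747875076389700 / 502592611936843 : ℝ) * (u ^ 1 * v ^ 8) +
      (30152088237782250 / 502592611936843 : ℝ) * (u ^ 2 * v ^ 7) +
      (220608288807091500 / 502592611936843 : ℝ) * (u ^ 3 * v ^ 6) +
      (709386196729366625 / 502592611936843 : ℝ) * (u ^ 4 * v ^ 5) +
      (1223333845962937500 / 502592611936843 : ℝ) * (u ^ 5 * v ^ 4) +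
      (1190595838162500000 / 502592611936843 : ℝ) * (u ^ 6 * v ^ 3) +
      (638657358750000000 / 502592611936843 : ℝ) * (u ^ 7 * v ^ 2) +
      (173608312500000000 / 502592611936843 : ℝ) * (u ^ 8 * v ^ 1) +
      (20958750000000000 / 502592611936843 : ℝ) * (u ^ 9 * v ^ 0) := by positivity
  rw [hv'] at h
  refine le_of_sub_nonneg (h.trans (le_of_eq ?_))
  ring

theorem b3 (u v : ℝ) (hu : 0 ≤ u) (hv : 0 ≤ v) (huv : u + v = (13 / 100 : ℝ)) :
    (134 / 100000 : ℝ) * ((507 / 100 : ℝ) + u) ^ 5 ≤ (((507 / 100 : ℝ) + u) - 3) ^ 2 * (4 - ((507 / 100 : ℝ) + u)) ^ 4 * (6 - ((507 / 100 : ℝ) + u)) ^ 3 := by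
  have hv' : v = (13 / 100 : ℝ) - u := by linarith
  have h : 0 ≤ (28827303151957893 / 10604499373 : ℝ) * (u ^ 0 * v ^ 9) +
      (552393045499243320 / 10604499373 : ℝ) * (u ^ 1 * v ^ 8) +
      (3151711726152562800 / 10604499373 : ℝ) * (u ^ 2 * v ^ 7) +
      (8965753258502520000 / 10604499373 : ℝ) * (u ^ 3 * v ^ 6) +
      (14911787665574142000 / 10604499373 : ℝ) * (u ^ 4 * v ^ 5) +
      (15348205299536400000 / 10604499373 : ℝ) * (u ^ 5 * v ^ 4) +
      (9792654199264000000 / 10604499373 : ℝ) * (u ^ 6 * v ^ 3) +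
      (3677027462400000000 / 10604499373 : ℝ) * (u ^ 7 * v ^ 2) +
      (702210841600000000 / 10604499373 : ℝ) * (u ^ 8 * v ^ 1) +
      (43812659200000000 / 10604499373 : ℝ) * (u ^ 9 * v ^ 0) := by positivity
  rw [hv'] at h
  refine le_of_sub_nonneg (h.trans (le_of_eq ?_))
  ring


theorem f_le1 {x : ℝ} (h3 : 3 ≤ x) (h4 : x ≤ 4) :
    (x - 3) ^ 2 * (4 - x) ^ 4 * (6 - x) ^ 3 ≤ (115 / 100000 : ℝ) * x ^ 5 := by
  rcases le_total x (163 / 50) with h | h
  · have := b1a (x - 3) (163 / 50 - x) (by linarith) (by linarith) (by ring)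
    rwa [show (3 : ℝ) + (x - 3) = x by ring] at this
  · have := b1b (x - 163 / 50) (4 - x) (by linarith) (by linarith) (by ring)
    rwa [show (163 / 50 : ℝ) + (x - 163 / 50) = x by ring] at this

theorem f_le2 {x : ℝ} (h3 : 4 ≤ x) (h4 : x ≤ 6) :
    (x - 3) ^ 2 * (4 - x) ^ 4 * (6 - x) ^ 3 ≤ (138 / 100000 : ℝ) * x ^ 5 := by
  rcases le_total x (257 / 50) with h | h
  · have := b2a (x - 4) (257 / 50 - x) (by linarith) (by linarith) (by ring)
    rwa [show (4 : ℝ) + (x - 4) = x by ring] at this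
  · have := b2b (x - 257 / 50) (6 - x) (by linarith) (by linarith) (by ring)
    rwa [show (257 / 50 : ℝ) + (x - 257 / 50) = x by ring] at this

theorem le_f {x : ℝ} (h3 : 507 / 100 ≤ x) (h4 : x ≤ 26 / 5) :
    (134 / 100000 : ℝ) * x ^ 5 ≤ (x - 3) ^ 2 * (4 - x) ^ 4 * (6 - x) ^ 3 := by
  have := b3 (x - 507 / 100) (26 / 5 - x) (by linarith) (by linarith) (by ring)
  rwa [show (507 / 100 : ℝ) + (x - 507 / 100) = x by ring] at this

/-- the integrand -/
noncomputable def integrand (n : ℕ) (x : ℝ) : ℝ :=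
  (x - 3) ^ (2 * n) * (4 - x) ^ (4 * n) * (6 - x) ^ (3 * n) / x ^ (5 * n + 1)

theorem integrand_eq (n : ℕ) {x : ℝ} (hx : 0 < x) :
    integrand n x = (((x - 3) ^ 2 * (4 - x) ^ 4 * (6 - x) ^ 3) / x ^ 5) ^ n * x⁻¹ := by
  unfold integrand
  rw [pow_mul, pow_mul, pow_mul, pow_succ x, pow_mul, div_pow, ← mul_pow, ← mul_pow]
  field_simp

theorem integrand_nonneg (n : ℕ) {x : ℝ} (h3 : 0 < x) (h4 : x ≤ 6) : 0 ≤ integrand n x := by
  rw [integrand_eq n h3]
  have h6 : 0 ≤ 6 - x := by linarith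
  have e4 : 0 ≤ (4 - x) ^ 4 := by positivity
  positivity

theorem integrand_le (n : ℕ) {x c : ℝ} (h3 : 0 < x) (h6 : x ≤ 6)
    (h : (x - 3) ^ 2 * (4 - x) ^ 4 * (6 - x) ^ 3 ≤ c * x ^ 5) :
    integrand n x ≤ c ^ n * x⁻¹ := by
  rw [integrand_eq n h3]
  have h6 : 0 ≤ 6 - x := by linarith
  have hf : ((x - 3) ^ 2 * (4 - x) ^ 4 * (6 - x) ^ 3) / x ^ 5 ≤ c := by
    rw [div_le_iff₀ (by positivity)]; exact h
  gcongr

theorem le_integrand (n : ℕ) {x c : ℝ} (h3 : 0 < x) (hc : 0 ≤ c)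
    (h : c * x ^ 5 ≤ (x - 3) ^ 2 * (4 - x) ^ 4 * (6 - x) ^ 3) :
    c ^ n * x⁻¹ ≤ integrand n x := by
  rw [integrand_eq n h3]
  have hf : c ≤ ((x - 3) ^ 2 * (4 - x) ^ 4 * (6 - x) ^ 3) / x ^ 5 := by
    rw [le_div_iff₀ (by positivity)]; exact h
  gcongr

theorem integrable (n : ℕ) {a b : ℝ} (ha : 0 < a) (hb : 0 < b) :
    IntervalIntegrable (integrand n) MeasureTheory.volume a b := by
  apply ContinuousOn.intervalIntegrable
  unfold integrand
  apply ContinuousOn.div (by fun_prop) (by fun_prop)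
  intro x hx h
  rw [Set.mem_uIcc] at hx
  have hx0 : x = 0 := pow_eq_zero_iff (by omega) |>.mp h
  rcases hx with hx | hx <;> linarith [hx.1]

theorem integrable_inv (c : ℝ) {a b : ℝ} (ha : 0 < a) (hb : 0 < b) :
    IntervalIntegrable (fun x : ℝ => c * x⁻¹) MeasureTheory.volume a b := by
  apply ContinuousOn.intervalIntegrable
  apply ContinuousOn.mul continuousOn_const
  apply ContinuousOn.inv₀ continuousOn_id
  intro x hx h
  rw [Set.mem_uIcc] at hx
  simp only [id] at h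
  rcases hx with hx | hx <;> linarith [hx.1]

/-- `J₁` -/
noncomputable def J1 (n : ℕ) : ℝ := ∫ x in (3 : ℝ)..4, integrand n x

/-- `J₂` -/
noncomputable def J2 (n : ℕ) : ℝ := ∫ x in (4 : ℝ)..6, integrand n x

theorem J1_nonneg (n : ℕ) : 0 ≤ J1 n := by
  apply intervalIntegral.integral_nonneg (by norm_num)
  intro x hx
  exact integrand_nonneg n (by linarith [hx.1]) (by linarith [hx.2])

theorem J1_le (n : ℕ) : J1 n ≤ log (4 / 3) * (115 / 100000 : ℝ) ^ n := by
  have h : J1 n ≤ ∫ x in (3 : ℝ)..4, (115 / 100000 : ℝ) ^ n * x⁻¹ := by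
    apply intervalIntegral.integral_mono_on (by norm_num) (integrable n (by norm_num) (by norm_num))
      (integrable_inv _ (by norm_num) (by norm_num))
    intro x hx
    exact integrand_le n (by linarith [hx.1]) (by linarith [hx.2]) (f_le1 hx.1 hx.2)
  rw [intervalIntegral.integral_const_mul, integral_inv_of_pos (by norm_num) (by norm_num)] at h
  linarith

theorem J2_le (n : ℕ) : J2 n ≤ log (3 / 2) * (138 / 100000 : ℝ) ^ n := by
  have h : J2 n ≤ ∫ x in (4 : ℝ)..6, (138 / 100000 : ℝ) ^ n * x⁻¹ := by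
    apply intervalIntegral.integral_mono_on (by norm_num) (integrable n (by norm_num) (by norm_num))
      (integrable_inv _ (by norm_num) (by norm_num))
    intro x hx
    exact integrand_le n (by linarith [hx.1]) (by linarith [hx.2]) (f_le2 hx.1 hx.2)
  rw [intervalIntegral.integral_const_mul, integral_inv_of_pos (by norm_num) (by norm_num)] at h
  rw [show (6 : ℝ) / 4 = 3 / 2 by norm_num] at h
  linarith

theorem le_J2 (n : ℕ) : log (520 / 507) * (134 / 100000 : ℝ) ^ n ≤ J2 n := by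
  have h1 : ∫ x in (507 / 100 : ℝ)..(26 / 5), (134 / 100000 : ℝ) ^ n * x⁻¹ ≤
      ∫ x in (507 / 100 : ℝ)..(26 / 5), integrand n x := by
    apply intervalIntegral.integral_mono_on (by norm_num)
      (integrable_inv _ (by norm_num) (by norm_num)) (integrable n (by norm_num) (by norm_num))
    intro x hx
    exact le_integrand n (by linarith [hx.1]) (by norm_num) (le_f hx.1 hx.2)
  have h2 : ∫ x in (507 / 100 : ℝ)..(26 / 5), integrand n x ≤ J2 n := by
    unfold J2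
    apply intervalIntegral.integral_mono_interval (by norm_num) (by norm_num) (by norm_num)
    · rw [Filter.EventuallyLE, MeasureTheory.ae_restrict_iff' measurableSet_Ioc]
      refine Filter.Eventually.of_forall fun x hx => ?_
      exact integrand_nonneg n (by linarith [hx.1]) (by linarith [hx.2])
    · exact integrable n (by norm_num) (by norm_num)
  rw [intervalIntegral.integral_const_mul, integral_inv_of_pos (by norm_num) (by norm_num)] at h1
  rw [show (26 / 5 : ℝ) / (507 / 100) = 520 / 507 by norm_num] at h1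
  linarith

theorem J2_nonneg (n : ℕ) : 0 ≤ J2 n := by
  refine le_trans ?_ (le_J2 n)
  have : 0 ≤ log (520 / 507 : ℝ) := log_nonneg (by norm_num)
  positivity

end Pool.Agent.Lib.P99994e
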