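import Mathlib

/-!
An explicit upper bound for `log lcm(1,…,N)`.
-/

set_option autoImplicit false

namespace Pool.Agent.Lib.P99994e

open Finset Real Nat

theorem log_eq_sum {p N b : ℕ} (hp : p.Prime) (hb : Nat.log p N < b) (hN : N ≠ 0) :
    Nat.log p N = ∑ i ∈ Ico 1 b, (if p ^ i ≤ N then 1 else 0) := by
  rw [Finset.sum_boole]
  have : (Ico 1 b).filter (fun i => p ^ i ≤ N) = Ico 1 (Nat.log p N + 1) := by
    ext i
    simp only [Finset.mem_filter, Finset.mem_Ico]
    constructor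
    · rintro ⟨⟨h1, _⟩, h3⟩
      have := Nat.le_log_of_pow_le hp.one_lt h3
      omega
    · rintro ⟨h1, h2⟩
      refine ⟨⟨h1, by omega⟩, ?_⟩
      exact (Nat.pow_le_pow_right hp.pos (by omega : i ≤ Nat.log p N)).trans
        (Nat.pow_log_le_self p hN)
  rw [this]
  simp

theorem term_le (N q : ℕ) (hq : 0 < q) :
    (N / 2) / q + (N / 3) / q + (N / 6) / q + (if q ≤ N then 1 else 0) ≤
      N / q + (if q ≤ N / 6 then 1 else 0) := by
  have e : ∀ c, N / c / q = N / q / c := fun c => Nat.div_div_eq_div_mul N c q ▸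
    (by rw [Nat.mul_comm, ← Nat.div_div_eq_div_mul])
  rw [e, e, e]
  have h1 : (if q ≤ N then 1 else 0) = if 1 ≤ N / q then 1 else 0 := by
    have : q ≤ N ↔ 1 ≤ N / q := by
      rw [Nat.le_div_iff_mul_le hq, one_mul]
    simp [this]
  have h2 : (if q ≤ N / 6 then 1 else 0) = if 6 ≤ N / q then 1 else 0 := by
    have : q ≤ N / 6 ↔ 6 ≤ N / q := by
      rw [Nat.le_div_iff_mul_le hq, Nat.le_div_iff_mul_le (by norm_num), mul_comm]
    simp [this]
  rw [h1, h2]
  generalize N / q = y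
  split_ifs <;> omega

theorem lcm_dvd (N : ℕ) (hN : 6 ≤ N) :
    (N / 2)! * (N / 3)! * (N / 6)! * lcmUpto N ∣ N ! * lcmUpto (N / 6) := by
  have f0 := fun k => Nat.factorial_ne_zero k
  have l0 := fun k => lcmUpto_ne_zero k
  rw [← Nat.factorization_prime_le_iff_dvd
    (mul_ne_zero (mul_ne_zero (mul_ne_zero (f0 _) (f0 _)) (f0 _)) (l0 _))
    (mul_ne_zero (f0 _) (l0 _))]
  intro p hp
  rw [Nat.factorization_mul (mul_ne_zero (mul_ne_zero (f0 _) (f0 _)) (f0 _)) (l0 _),
    Nat.factorization_mul (mul_ne_zero (f0 _) (f0 _)) (f0 _),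
    Nat.factorization_mul (f0 _) (f0 _),
    Nat.factorization_mul (f0 _) (l0 _)]
  simp only [Finsupp.add_apply]
  set b := Nat.log p N + 1 with hb
  have hlog : ∀ c, Nat.log p (N / c) < b := fun c =>
    Nat.lt_succ_of_le (Nat.log_mono_right (Nat.div_le_self _ _))
  rw [Nat.factorization_factorial hp (hlog 2), Nat.factorization_factorial hp (hlog 3),
    Nat.factorization_factorial hp (hlog 6), Nat.factorization_factorial hp (b := b) (by omega),
    factorization_lcmUpto _ hp, factorization_lcmUpto _ hp,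
    log_eq_sum hp (b := b) (by omega) (by omega), log_eq_sum hp (hlog 6) (by omega),
    ← Finset.sum_add_distrib, ← Finset.sum_add_distrib, ← Finset.sum_add_distrib,
    ← Finset.sum_add_distrib]
  refine Finset.sum_le_sum fun i _ => ?_
  exact term_le N (p ^ i) (pow_pos hp.pos i)

/-- a trinomial bound -/
theorem fact_add_le (a b c : ℕ) :
    Real.log ((a + b + c)! : ℕ) ≤ Real.log (a ! : ℕ) + Real.log (b ! : ℕ) + Real.log (c ! : ℕ) +
      (a + c : ℕ) * Real.log 2 + (b + c : ℕ) * Real.log 3 := by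
  have h1 : (a + (b + c)).choose a * a ! * (b + c)! = (a + (b + c))! := by
    have := Nat.choose_mul_factorial_mul_factorial (n := a + (b + c)) (k := a) (by omega)
    rwa [Nat.add_sub_cancel_left] at this
  have h2 : (b + c).choose b * b ! * c ! = (b + c)! := by
    have := Nat.choose_mul_factorial_mul_factorial (n := b + c) (k := b) (by omega)
    rwa [Nat.add_sub_cancel_left] at this
  have h3 : (a + (b + c)).choose a ≤ 2 ^ (a + (b + c)) := Nat.choose_le_two_pow _ _
  have h4 : (b + c).choose b * 2 ^ b ≤ 3 ^ (b + c) := by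
    have h := add_pow 2 1 (b + c) (R := ℕ)
    have h5 : (2 : ℕ) ^ b * 1 ^ (b + c - b) * (b + c).choose b ≤
        ∑ m ∈ range (b + c + 1), (2 : ℕ) ^ m * 1 ^ (b + c - m) * (b + c).choose m :=
      Finset.single_le_sum (f := fun m => (2 : ℕ) ^ m * 1 ^ (b + c - m) * (b + c).choose m)
        (fun _ _ => Nat.zero_le _) (Finset.mem_range.mpr (by omega))
    simp only [Nat.cast_id] at h
    rw [← h] at h5
    simp only [one_pow, mul_one] at h5
    rw [mul_comm]
    exact h5
  have h5 : (a + b + c)! * 2 ^ b ≤ 2 ^ (a + (b + c)) * 3 ^ (b + c) * (a ! * b ! * c !) := by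
    rw [add_assoc, ← h1, ← h2]
    calc (a + (b + c)).choose a * a ! * ((b + c).choose b * b ! * c !) * 2 ^ b
        = (a + (b + c)).choose a * ((b + c).choose b * 2 ^ b) * (a ! * b ! * c !) := by ring
      _ ≤ 2 ^ (a + (b + c)) * 3 ^ (b + c) * (a ! * b ! * c !) := by
          gcongr
  have h6 : (((a + b + c)! : ℕ) : ℝ) * 2 ^ b ≤
      2 ^ (a + (b + c)) * 3 ^ (b + c) * ((a ! : ℕ) * (b ! : ℕ) * (c ! : ℕ)) := by exact_mod_cast h5
  have fp := fun k => (Nat.cast_pos (α := ℝ)).mpr (Nat.factorial_pos k)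
  have h7 := Real.log_le_log (mul_pos (fp _) (by positivity)) h6
  rw [Real.log_mul (fp _).ne' (by positivity), Real.log_mul (by positivity)
    (mul_pos (mul_pos (fp _) (fp _)) (fp _)).ne', Real.log_mul (by positivity) (by positivity),
    Real.log_mul (mul_pos (fp _) (fp _)).ne' (fp _).ne', Real.log_mul (fp _).ne' (fp _).ne',
    Real.log_pow, Real.log_pow, Real.log_pow] at h7
  push_cast at h7 ⊢
  linarith

/-- the constant -/
noncomputable def cA : ℝ := 2 / 3 * Real.log 2 + 1 / 2 * Real.log 3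

theorem fact_le (N : ℕ) (hN : 6 ≤ N) :
    Real.log (N ! : ℕ) ≤ Real.log ((N / 2)! : ℕ) + Real.log ((N / 3)! : ℕ) +
      Real.log ((N / 6)! : ℕ) + cA * N + 2 * Real.log N := by
  have h := fact_add_le (N / 2) (N / 3) (N / 6)
  have hl2 : 0 ≤ Real.log 2 := Real.log_nonneg (by norm_num)
  have hl3 : 0 ≤ Real.log 3 := Real.log_nonneg (by norm_num)
  have h1 : ((N / 2 + N / 6 : ℕ) : ℝ) ≤ 2 / 3 * N := by
    have : 3 * (N / 2 + N / 6) ≤ 2 * N := by omega
    have : (3 : ℝ) * ((N / 2 + N / 6 : ℕ) : ℝ) ≤ 2 * N := by exact_mod_cast this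
    linarith
  have h2 : ((N / 3 + N / 6 : ℕ) : ℝ) ≤ 1 / 2 * N := by
    have : 2 * (N / 3 + N / 6) ≤ N := by omega
    have : (2 : ℝ) * ((N / 3 + N / 6 : ℕ) : ℝ) ≤ N := by exact_mod_cast this
    linarith
  have h3 : N ! ≤ (N / 2 + N / 3 + N / 6)! * N ^ 2 := by
    obtain ⟨r, hr, hr2⟩ : ∃ r, N = (N / 2 + N / 3 + N / 6) + r ∧ r ≤ 2 :=
      ⟨N - (N / 2 + N / 3 + N / 6), by omega, by omega⟩
    generalize hM : N / 2 + N / 3 + N / 6 = M at *
    have hNpos : 1 ≤ N := by omega
    rcases (by omega : r = 0 ∨ r = 1 ∨ r = 2) with rfl | rfl | rfl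
    · rw [add_zero] at hr; rw [← hr]
      exact Nat.le_mul_of_pos_right _ (by positivity)
    · rw [hr, Nat.factorial_succ, mul_comm]
      apply Nat.mul_le_mul_left
      rw [sq]; exact Nat.le_mul_of_pos_right _ (by omega)
    · rw [hr, show M + 2 = (M + 1) + 1 from rfl, Nat.factorial_succ, Nat.factorial_succ]
      calc (M + 1 + 1) * ((M + 1) * M !) = M ! * ((M + 1 + 1) * (M + 1)) := by ring
        _ ≤ M ! * (M + 1 + 1) ^ 2 := by
          apply Nat.mul_le_mul_left
          rw [sq]; apply Nat.mul_le_mul_left; omega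
  have h4 : ((N ! : ℕ) : ℝ) ≤ (((N / 2 + N / 3 + N / 6)! : ℕ) : ℝ) * (N : ℝ) ^ 2 := by
    exact_mod_cast h3
  have fp := fun k => (Nat.cast_pos (α := ℝ)).mpr (Nat.factorial_pos k)
  have hN0 : (0 : ℝ) < N := by exact_mod_cast (by omega : 0 < N)
  have h5 := Real.log_le_log (fp _) h4
  rw [Real.log_mul (fp _).ne' (by positivity), Real.log_pow] at h5
  have h6 := mul_le_mul_of_nonneg_right h1 hl2
  have h7 := mul_le_mul_of_nonneg_right h2 hl3
  unfold cA
  push_cast at *
  nlinarith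

theorem lcm_rec (N : ℕ) (hN : 6 ≤ N) :
    Real.log (lcmUpto N : ℕ) ≤ Real.log (lcmUpto (N / 6) : ℕ) + cA * N + 2 * Real.log N := by
  have h1 := Nat.le_of_dvd (Nat.mul_pos (Nat.factorial_pos _) (lcmUpto_pos _)) (lcm_dvd N hN)
  have h2 : (((N / 2)! : ℕ) : ℝ) * ((N / 3)! : ℕ) * ((N / 6)! : ℕ) * (lcmUpto N : ℕ) ≤
      ((N ! : ℕ) : ℝ) * (lcmUpto (N / 6) : ℕ) := by exact_mod_cast h1
  have fp := fun k => (Nat.cast_pos (α := ℝ)).mpr (Nat.factorial_pos k)
  have lp := fun k => (Nat.cast_pos (α := ℝ)).mpr (lcmUpto_pos k)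
  have h3 := Real.log_le_log (mul_pos (mul_pos (mul_pos (fp _) (fp _)) (fp _)) (lp _)) h2
  rw [Real.log_mul (mul_pos (mul_pos (fp _) (fp _)) (fp _)).ne' (lp _).ne',
    Real.log_mul (mul_pos (fp _) (fp _)).ne' (fp _).ne', Real.log_mul (fp _).ne' (fp _).ne',
    Real.log_mul (fp _).ne' (lp _).ne'] at h3
  have h4 := fact_le N hN
  linarith

theorem log6_gt : 5 / 3 < Real.log 6 := by
  rw [Real.lt_log_iff_exp_lt (by norm_num)]
  have h1 : Real.exp (5 / 3) = Real.exp 1 * Real.exp (2 / 3) := by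
    rw [← Real.exp_add]; norm_num
  have h2 : Real.exp (2 / 3) ^ 3 = Real.exp 1 ^ 2 := by
    rw [← Real.exp_nat_mul, ← Real.exp_nat_mul]; norm_num
  have h3 := Real.exp_one_lt_d9
  have h3' := Real.exp_pos 1
  have h4 : Real.exp (2 / 3) < 1.9478 := by
    have : Real.exp (2 / 3) ^ 3 < (1.9478 : ℝ) ^ 3 := by
      rw [h2]
      calc Real.exp 1 ^ 2 ≤ 2.7182818286 ^ 2 := by gcongr
        _ < _ := by norm_num
    exact lt_of_pow_lt_pow_left₀ 3 (by norm_num) this
  rw [h1]
  nlinarith [Real.exp_pos (2 / 3 : ℝ)]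

theorem log6_lt : Real.log 6 < 2 := by
  rw [Real.log_lt_iff_lt_exp (by norm_num)]
  have h1 : Real.exp 2 = Real.exp 1 ^ 2 := by
    rw [← Real.exp_nat_mul]; norm_num
  have h3 := Real.exp_one_gt_d9
  rw [h1]
  nlinarith

theorem cA_eq : cA = 1 / 6 * Real.log 432 := by
  unfold cA
  rw [show (432 : ℝ) = 2 ^ 4 * 3 ^ 3 by norm_num, Real.log_mul (by norm_num) (by norm_num),
    Real.log_pow, Real.log_pow]
  push_cast; ring

theorem one_le_cA : 1 ≤ cA := by
  rw [cA_eq]
  have h : (6 : ℝ) ≤ Real.log 432 := by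
    rw [Real.le_log_iff_exp_le (by norm_num)]
    have h3 := Real.exp_one_lt_d9
    have h1 : Real.exp 6 = Real.exp 1 ^ 6 := by
      rw [← Real.exp_nat_mul]; norm_num
    rw [h1]
    calc Real.exp 1 ^ 6 ≤ 2.7182818286 ^ 6 := by gcongr
      _ ≤ 432 := by norm_num
  linarith

/-- An explicit Chebyshev bound. -/
theorem log_lcm_le (N : ℕ) (hN : 1 ≤ N) :
    Real.log (lcmUpto N : ℕ) ≤
      6 / 5 * cA * N + 3 / 5 * Real.log N ^ 2 + 6 / 5 * Real.log N := by
  induction N using Nat.strong_induction_on with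
  | _ N ih =>
    have hA : 1 ≤ cA := one_le_cA
    have hlN : 0 ≤ Real.log N := Real.log_natCast_nonneg N
    by_cases h6 : 6 ≤ N
    · have h1 := ih (N / 6) (by omega) (by omega)
      have h2 := lcm_rec N h6
      have hle : ((N / 6 : ℕ) : ℝ) ≤ N / 6 := Nat.cast_div_le
      have hpos : (0 : ℝ) < ((N / 6 : ℕ) : ℝ) := by exact_mod_cast (by omega : 0 < N / 6)
      have hN0 : (0 : ℝ) < N := by exact_mod_cast (by omega : 0 < N)
      have h3 : Real.log ((N / 6 : ℕ) : ℝ) ≤ Real.log N - Real.log 6 := by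
        rw [← Real.log_div hN0.ne' (by norm_num)]
        exact Real.log_le_log hpos hle
      have h4 : 0 ≤ Real.log ((N / 6 : ℕ) : ℝ) := Real.log_natCast_nonneg _
      have h5 : Real.log ((N / 6 : ℕ) : ℝ) ^ 2 ≤ (Real.log N - Real.log 6) ^ 2 := by
        gcongr
      have g6 := log6_gt
      have g6' := log6_lt
      have h7 : 6 / 5 * cA * ((N / 6 : ℕ) : ℝ) ≤ 6 / 5 * cA * (N / 6) := by
        have : 0 ≤ 6 / 5 * cA := by linarith
        exact mul_le_mul_of_nonneg_left hle this
      have h8 : 6 / 5 * cA * ((N : ℝ) / 6) = 1 / 5 * cA * N := by ring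
      have h9 : 0 ≤ Real.log N * (Real.log 6 - 5 / 3) := mul_nonneg hlN (by linarith)
      have h10 : 0 ≤ Real.log 6 * (2 - Real.log 6) := mul_nonneg (by linarith) (by linarith)
      nlinarith
    · have hN1 : (1 : ℝ) ≤ N := by exact_mod_cast hN
      have hbase : Real.log (lcmUpto N : ℕ) ≤ 6 / 5 * N := by
        have he := Real.exp_one_gt_d9
        have key : ∀ m : ℕ, ∀ k : ℕ, (m : ℝ) ≤ 2.7 ^ k → Real.log (m : ℝ) ≤ k := by
          intro m k hm
          rcases Nat.eq_zero_or_pos m with rfl | hm0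
          · simp
          have hm0' : (0 : ℝ) < m := by exact_mod_cast hm0
          have : (m : ℝ) ≤ Real.exp k := by
            have e : Real.exp k = Real.exp 1 ^ k := by rw [← Real.exp_nat_mul]; simp
            rw [e]
            exact hm.trans (by gcongr; linarith)
          calc Real.log (m : ℝ) ≤ Real.log (Real.exp k) := Real.log_le_log hm0' this
            _ = k := Real.log_exp _
        interval_cases N
        · have : lcmUpto 1 = 1 := by decide
          rw [this]; norm_num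
        · have : lcmUpto 2 = 2 := by decide
          rw [this]
          have := key 2 1 (by norm_num); push_cast at *; linarith
        · have : lcmUpto 3 = 6 := by decide
          rw [this]
          have := key 6 2 (by norm_num); push_cast at *; linarith
        · have : lcmUpto 4 = 12 := by decide
          rw [this]
          have := key 12 3 (by norm_num); push_cast at *; linarith
        · have : lcmUpto 5 = 60 := by decide
          rw [this]
          have := key 60 5 (by norm_num); push_cast at *; linarith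
      have : 6 / 5 * (N : ℝ) ≤ 6 / 5 * cA * N := by nlinarith
      nlinarith [sq_nonneg (Real.log N)]

end Pool.Agent.Lib.P99994e
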