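import Pool.Agent.Lib.P99994e.Walk

/-!
A fast test that `X` is not the least element of a finite cycle with at most ten peaks.
-/

set_option autoImplicit false

namespace Pool.Agent.Lib.P99994e

/-- Simulate the walk from `u` (after `t` peaks): `true` if it falls below `X`, or passes more
than ten peaks, or returns to `X` with `X ∈ {2, 4, 44}`. -/
def go (X f : ℕ) : ℕ → ℕ → Bool :=
  Nat.rec (motive := fun _ => ℕ → ℕ → Bool) (fun _ _ => false)
    (fun _ ih u t =>
      cond (Nat.beq (Nat.mod u 3) 0)
        (cond (Nat.beq (Nat.add t (Nat.mod u 2)) 11) true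
          (cond (Nat.ble X (Nat.mul 2 (Nat.div u 3)))
            (cond (Nat.beq X (Nat.mul 2 (Nat.div u 3)))
              (Nat.beq X 2 || Nat.beq X 4 || Nat.beq X 44)
              (ih (Nat.mul 2 (Nat.div u 3)) (Nat.add t (Nat.mod u 2))))
            true))
        (ih (Nat.sub (Nat.add (Nat.mul 4 (Nat.div u 3)) (Nat.mul 2 (Nat.mod u 3))) 1) t)) f

/-- Test the block `6 m' + 2, 6 m' + 4` for `m ≤ m' < m + 2 ^ k`. -/
def rng (k : ℕ) : ℕ → Bool :=
  Nat.rec (motive := fun _ => ℕ → Bool)
    (fun m => go (6 * m + 2) 110 (6 * m + 2) 0 && go (6 * m + 4) 110 (6 * m + 4) 0)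
    (fun k ih m => ih m && ih (m + 2 ^ k)) k

theorem go_succ (X f u t : ℕ) : go X (f + 1) u t =
    cond (Nat.beq (Nat.mod u 3) 0)
        (cond (Nat.beq (Nat.add t (Nat.mod u 2)) 11) true
          (cond (Nat.ble X (Nat.mul 2 (Nat.div u 3)))
            (cond (Nat.beq X (Nat.mul 2 (Nat.div u 3)))
              (Nat.beq X 2 || Nat.beq X 4 || Nat.beq X 44)
              (go X f (Nat.mul 2 (Nat.div u 3)) (Nat.add t (Nat.mod u 2))))
            true))
        (go X f (Nat.sub (Nat.add (Nat.mul 4 (Nat.div u 3)) (Nat.mul 2 (Nat.mod u 3))) 1) t) := rfl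

theorem rng_succ (k m : ℕ) : rng (k + 1) m = (rng k m && rng k (m + 2 ^ k)) := rfl

theorem rng_zero (m : ℕ) :
    rng 0 m = (go (6 * m + 2) 110 (6 * m + 2) 0 && go (6 * m + 4) 110 (6 * m + 4) 0) := rfl

theorem rng_spec (k : ℕ) : ∀ m : ℕ, rng k m = true → ∀ m', m ≤ m' → m' < m + 2 ^ k →
    rng 0 m' = true := by
  induction k with
  | zero =>
    intro m h m' h1 h2
    have : m' = m := by simp at h2; omega
    rw [this]; exact h
  | succ k ih =>
    intro m h m' h1 h2
    rw [rng_succ, Bool.and_eq_true] at h
    by_cases h3 : m' < m + 2 ^ k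
    · exact ih m h.1 m' h1 h3
    · refine ih (m + 2 ^ k) h.2 m' (by omega) ?_
      rw [pow_succ] at h2; omega

variable {u : ℕ → ℕ} {n X : ℕ}

theorem peaks_succ (u : ℕ → ℕ) (i : ℕ) :
    peaks u (i + 1) = peaks u i + if u i % 6 = 3 then 1 else 0 := by
  unfold peaks
  rw [Finset.range_add_one, Finset.filter_insert]
  split_ifs with h1
  · rw [Finset.card_insert_of_notMem (by simp)]
  · rfl

theorem peaks_mono (u : ℕ → ℕ) : Monotone (peaks u) := by
  apply monotone_nat_of_le_succ
  intro i
  rw [peaks_succ]; omega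

theorem Cyc.go_false (h : Cyc u n X) (ht : peaks u n ≤ 10) (f : ℕ) :
    ∀ i, i < n → go X f (u i) (peaks u i) = true → X = 2 ∨ X = 4 ∨ X = 44 := by
  induction f with
  | zero =>
    intro i _ h1
    exact absurd h1 (by simp [go])
  | succ f ih =>
    intro i hi h1
    rw [go_succ] at h1
    have hX := h.least (i + 1)
    have hn : ∀ j, u j ≠ X → j ≠ n := by
      intro j hj hjn
      subst hjn
      exact hj (h.per.trans h.base)
    by_cases h3 : u i % 3 = 0
    · have e1 : Nat.beq (Nat.mod (u i) 3) 0 = true := by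
        show Nat.beq (u i % 3) 0 = true
        rw [h3]; rfl
      rw [e1, cond_true] at h1
      have hP := P_mod_zero h3
      rw [← h.step] at hP
      have e2 : Nat.mul 2 (Nat.div (u i) 3) = u (i + 1) := by
        show 2 * (u i / 3) = u (i + 1)
        omega
      have e3 : Nat.add (peaks u i) (Nat.mod (u i) 2) = peaks u (i + 1) := by
        show peaks u i + u i % 2 = peaks u (i + 1)
        rw [peaks_succ]
        split_ifs with h6
        · omega
        · omega
      rw [e2, e3] at h1
      have h5 : peaks u (i + 1) ≤ 10 := (peaks_mono u (by omega)).trans ht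
      have e4 : Nat.beq (peaks u (i + 1)) 11 = false := by
        rw [Bool.eq_false_iff]
        intro hc
        have := Nat.eq_of_beq_eq_true hc
        omega
      rw [e4, cond_false] at h1
      have e5 : Nat.ble X (u (i + 1)) = true := Nat.ble_eq.mpr hX
      rw [e5, cond_true] at h1
      by_cases h7 : u (i + 1) = X
      · have e6 : Nat.beq X (u (i + 1)) = true := by rw [h7]; exact Nat.beq_refl X
        rw [e6, cond_true, Bool.or_eq_true, Bool.or_eq_true] at h1
        rcases h1 with (h1 | h1) | h1
        · exact Or.inl (Nat.eq_of_beq_eq_true h1)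
        · exact Or.inr (Or.inl (Nat.eq_of_beq_eq_true h1))
        · exact Or.inr (Or.inr (Nat.eq_of_beq_eq_true h1))
      · have e6 : Nat.beq X (u (i + 1)) = false := by
          rw [Bool.eq_false_iff]
          intro hc
          exact h7 (Nat.eq_of_beq_eq_true hc).symm
        rw [e6, cond_false] at h1
        refine ih (i + 1) ?_ h1
        have := hn _ h7
        omega
    · have e1 : Nat.beq (Nat.mod (u i) 3) 0 = false := by
        rw [Bool.eq_false_iff]
        intro hc
        exact h3 (Nat.eq_of_beq_eq_true hc)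
      rw [e1, cond_false] at h1
      have hXi := h.least i
      have h2 := h.two_le i
      have e2 : Nat.sub (Nat.add (Nat.mul 4 (Nat.div (u i) 3)) (Nat.mul 2 (Nat.mod (u i) 3))) 1 =
          u (i + 1) := by
        show 4 * (u i / 3) + 2 * (u i % 3) - 1 = u (i + 1)
        rw [h.step]
        rcases (by omega : u i % 3 = 1 ∨ u i % 3 = 2) with h' | h'
        · have := P_mod_one h'; omega
        · have := P_mod_two h'; omega
      have hgt : u i < u (i + 1) := by
        rw [h.step]
        rcases (by omega : u i % 3 = 1 ∨ u i % 3 = 2) with h' | h'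
        · have := P_mod_one h'; omega
        · have := P_mod_two h'; omega
      have e3 : peaks u (i + 1) = peaks u i := by
        rw [peaks_succ, if_neg (by omega), add_zero]
      rw [e2, ← e3] at h1
      refine ih (i + 1) ?_ h1
      have := hn _ (by omega : u (i + 1) ≠ X)
      omega

/-- the least element is `≡ 2, 4 mod 6` -/
theorem Cyc.X_mod (h : Cyc u n X) (hn : 0 < n) : X % 6 = 2 ∨ X % 6 = 4 := by
  have h3 := h.X_not_three
  have h2 : X % 2 = 0 := by
    -- the predecessor `u (n-1)` is not smaller
    have hs := h.step (n - 1)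
    have e : n - 1 + 1 = n := by omega
    rw [e, h.per, h.base] at hs
    have hl := h.least (n - 1)
    have h2' := h.two
    by_contra hodd
    have h4 : u (n - 1) % 3 ≠ 0 := by
      intro hc
      have := (P_even_iff _).mpr hc
      rw [← hs] at this
      omega
    rcases (by omega : u (n - 1) % 3 = 1 ∨ u (n - 1) % 3 = 2) with h' | h'
    · have := P_mod_one h'; omega
    · have := P_mod_two h'; omega
  omega

theorem Cyc.of_rng (h : Cyc u n X) (hn : 0 < n) (ht : peaks u n ≤ 10)
    (hr : rng 0 (X / 6) = true) : X = 2 ∨ X = 4 ∨ X = 44 := by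
  rw [rng_zero, Bool.and_eq_true] at hr
  have h0 : peaks u 0 = 0 := by simp [peaks]
  rcases h.X_mod hn with h6 | h6
  · have e : 6 * (X / 6) + 2 = X := by omega
    rw [e] at hr
    refine h.go_false ht 110 0 hn ?_
    rw [h.base, h0]; exact hr.1
  · have e : 6 * (X / 6) + 4 = X := by omega
    rw [e] at hr
    refine h.go_false ht 110 0 hn ?_
    rw [h.base, h0]; exact hr.2

end Pool.Agent.Lib.P99994e
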