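import Pool.Agent.Lib.P99994e.Chk0
import Pool.Agent.Lib.P99994e.Chk1
import Pool.Agent.Lib.P99994e.Chk2
import Pool.Agent.Lib.P99994e.Chk3
import Pool.Agent.Lib.P99994e.Chk4
import Pool.Agent.Lib.P99994e.Chk5

set_option autoImplicit false

namespace Pool.Agent.Lib.P99994e

theorem rng_all (m : ℕ) (hm : m < 38912) : rng 0 m = true := by
  by_cases h0 : m < 8192
  · exact rng_spec 13 0 chk0 m (by omega) (by norm_num; omega)
  by_cases h1 : m < 16384
  · exact rng_spec 13 8192 chk1 m (by omega) (by norm_num; omega)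
  by_cases h2 : m < 24576
  · exact rng_spec 13 16384 chk2 m (by omega) (by norm_num; omega)
  by_cases h3 : m < 32768
  · exact rng_spec 13 24576 chk3 m (by omega) (by norm_num; omega)
  by_cases h4 : m < 36864
  · exact rng_spec 12 32768 chk4 m (by omega) (by norm_num; omega)
  · exact rng_spec 11 36864 chk5 m (by omega) (by norm_num; omega)

variable {u : ℕ → ℕ} {n X : ℕ}

/-- Small least elements. -/
theorem Cyc.small (h : Cyc u n X) (hn : 0 < n) (ht : peaks u n ≤ 10) (hX : X < 233472) :
    X = 2 ∨ X = 4 ∨ X = 44 :=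
  h.of_rng hn ht (rng_all (X / 6) (by omega))

end Pool.Agent.Lib.P99994e
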