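import Pool.Agent.Lib.P99994e.Defs

/-!
Small values of `a log 2 - b log 3` for moderate `b` (continued fraction of `log 3 / log 2`).
-/

set_option autoImplicit false
set_option exponentiation.threshold 10000000

namespace Pool.Agent.Lib.P99994e

open Real

/-- the linear form -/
noncomputable def lf (a b : ℤ) : ℝ := a * log 2 - b * log 3

theorem lf_comb (a b p q p' q' i j : ℤ) (ha : a = i * p + j * p') (hb : b = i * q + j * q') :
    lf a b = i * lf p q + j * lf p' q' := by
  unfold lf; rw [ha, hb]; push_cast; ring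

theorem exists_comb (a b p q p' q' : ℤ) (s : ℤ) (hs : s * s = 1) (hdet : p * q' - p' * q = s) :
    ∃ i j : ℤ, a = i * p + j * p' ∧ b = i * q + j * q' := by
  refine ⟨s * (a * q' - b * p'), s * (b * p - a * q), ?_, ?_⟩
  · have : s * (a * q' - b * p') * p + s * (b * p - a * q) * p' = s * (p * q' - p' * q) * a := by ring
    rw [this, hdet, hs, one_mul]
  · have : s * (a * q' - b * p') * q + s * (b * p - a * q) * q' = s * (p * q' - p' * q) * b := by ring
    rw [this, hdet, hs, one_mul]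

theorem best_approx {p q p' q' : ℤ} (s : ℤ) (hs : s * s = 1) (hdet : p * q' - p' * q = s)
    (hq : 0 < q) (hq' : 0 < q') {c : ℝ} (hα : lf p q ≤ - c) (hβ : 0 ≤ lf p' q') (hc : 0 ≤ c)
    {a b : ℤ} (hb : 0 < b) (hbq : b < q') : c ≤ |lf a b| := by
  obtain ⟨i, j, h1, h2⟩ := exists_comb a b p q p' q' s hs hdet
  rw [lf_comb a b p q p' q' i j h1 h2]
  rcases lt_trichotomy j 0 with hj | hj | hj
  · have hi : 1 ≤ i := by
      by_contra hcon
      have : i ≤ 0 := by omega
      nlinarith
    have hi' : (1 : ℝ) ≤ i := by exact_mod_cast hi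
    have hj' : (j : ℝ) ≤ 0 := by exact_mod_cast hj.le
    rw [abs_of_nonpos]
    · nlinarith
    · nlinarith
  · subst hj
    have hi : i ≠ 0 := by
      rintro rfl
      simp at h2
      omega
    simp only [Int.cast_zero, zero_mul, add_zero, abs_mul]
    have h3 : (1 : ℝ) ≤ |(i : ℝ)| := by exact_mod_cast Int.one_le_abs hi
    have h4 : c ≤ |lf p q| := by rw [abs_of_nonpos (by linarith)]; linarith
    nlinarith [abs_nonneg (lf p q)]
  · have hi : i ≤ -1 := by
      by_contra hcon
      have : 0 ≤ i := by omega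
      nlinarith
    have hi' : (i : ℝ) ≤ -1 := by exact_mod_cast hi
    have hj' : (0 : ℝ) ≤ j := by exact_mod_cast hj.le
    rw [abs_of_nonneg]
    · nlinarith
    · nlinarith

theorem farey_approx {p q p' q' : ℤ} (s : ℤ) (hs : s * s = 1) (hdet : p * q' - p' * q = s)
    (hq : 0 < q) (hq' : 0 < q') {c : ℝ} (hα : c ≤ lf p q) (hβ : lf p' q' ≤ - c) (hc : 0 ≤ c)
    {a b : ℤ} (hb : 0 < b) (hbq : b < q + q') : c ≤ |lf a b| := by
  obtain ⟨i, j, h1, h2⟩ := exists_comb a b p q p' q' s hs hdet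
  rw [lf_comb a b p q p' q' i j h1 h2]
  by_cases hi : 1 ≤ i
  · have hj : j ≤ 0 := by
      by_contra hcon
      have : 1 ≤ j := by omega
      nlinarith
    have hi' : (1 : ℝ) ≤ i := by exact_mod_cast hi
    have hj' : (j : ℝ) ≤ 0 := by exact_mod_cast hj
    rw [abs_of_nonneg]
    · nlinarith
    · nlinarith
  · have hi0 : i ≤ 0 := by omega
    have hj : 1 ≤ j := by
      by_contra hcon
      have : j ≤ 0 := by omega
      nlinarith
    have hi' : (i : ℝ) ≤ 0 := by exact_mod_cast hi0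
    have hj' : (1 : ℝ) ≤ j := by exact_mod_cast hj
    rw [abs_of_nonpos]
    · nlinarith
    · nlinarith

theorem lf_le_of_pow {p q N M : ℕ} (hM : M < N) (h : 2 ^ p * N ≤ 3 ^ q * (N - M)) :
    lf p q ≤ - ((M : ℝ) / N) := by
  have hN : (0 : ℝ) < N := by exact_mod_cast (by omega : 0 < N)
  have hM' : (M : ℝ) < N := by exact_mod_cast hM
  have h1 : ((2 : ℝ) ^ p * N) ≤ 3 ^ q * (N - M) := by
    have : ((2 ^ p * N : ℕ) : ℝ) ≤ ((3 ^ q * (N - M) : ℕ) : ℝ) := by exact_mod_cast h
    rw [Nat.cast_mul, Nat.cast_mul, Nat.cast_sub hM.le] at this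
    push_cast at this
    exact this
  have hx : (0 : ℝ) < 1 - M / N := by
    rw [sub_pos, div_lt_one hN]; exact hM'
  have h2 : (2 : ℝ) ^ p ≤ 3 ^ q * (1 - M / N) := by
    have : (3 : ℝ) ^ q * (1 - M / N) = 3 ^ q * (N - M) / N := by field_simp
    rw [this, le_div_iff₀ hN]; exact h1
  have h3 := log_le_log (by positivity) h2
  rw [log_mul (by positivity) hx.ne', log_pow, log_pow] at h3
  have h4 := log_le_sub_one_of_pos hx
  unfold lf
  push_cast
  linarith

theorem le_lf_of_pow {p q N M : ℕ} (hM : M < N) (h : 3 ^ q * N ≤ 2 ^ p * (N - M)) :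
    (M : ℝ) / N ≤ lf p q := by
  have hN : (0 : ℝ) < N := by exact_mod_cast (by omega : 0 < N)
  have hM' : (M : ℝ) < N := by exact_mod_cast hM
  have h1 : ((3 : ℝ) ^ q * N) ≤ 2 ^ p * (N - M) := by
    have : ((3 ^ q * N : ℕ) : ℝ) ≤ ((2 ^ p * (N - M) : ℕ) : ℝ) := by exact_mod_cast h
    rw [Nat.cast_mul, Nat.cast_mul, Nat.cast_sub hM.le] at this
    push_cast at this
    exact this
  have hx : (0 : ℝ) < 1 - M / N := by
    rw [sub_pos, div_lt_one hN]; exact hM'
  have h2 : (3 : ℝ) ^ q ≤ 2 ^ p * (1 - M / N) := by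
    have : (2 : ℝ) ^ p * (1 - M / N) = 2 ^ p * (N - M) / N := by field_simp
    rw [this, le_div_iff₀ hN]; exact h1
  have h3 := log_le_log (by positivity) h2
  rw [log_mul (by positivity) hx.ne', log_pow, log_pow] at h3
  have h4 := log_le_sub_one_of_pos hx
  unfold lf
  push_cast
  linarith

theorem num1 : Nat.ble (2 ^ 1054 * 10 ^ 9) (3 ^ 665 * (10 ^ 9 - 43652)) = true := by decide +kernel

theorem num2 : Nat.ble (3 ^ 15601 * 1) (2 ^ 24727 * (1 - 0)) = true := by decide +kernel

theorem num3 : Nat.ble (3 ^ 190537 * 10 ^ 10) (2 ^ 301994 * (10 ^ 10 - 645)) = true := by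
  decide +kernel

theorem num4 : Nat.ble (2 ^ 4102173 * 10 ^ 10) (3 ^ 2588183 * (10 ^ 10 - 645)) = true := by
  decide +kernel

/-- first range -/
theorem lf_small {a b : ℤ} (hb : 0 < b) (hb' : b < 15601) : (43652 : ℝ) / 10 ^ 9 ≤ |lf a b| := by
  refine best_approx (p := 1054) (q := 665) (p' := 24727) (q' := 15601) (-1) (by norm_num)
    (by norm_num) (by norm_num) (by norm_num) ?_ ?_ (by norm_num) hb hb'
  · have := lf_le_of_pow (p := 1054) (q := 665) (N := 10 ^ 9) (M := 43652) (by norm_num)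
      (Nat.le_of_ble_eq_true num1)
    norm_num at this ⊢
    linarith
  · have := le_lf_of_pow (p := 24727) (q := 15601) (N := 1) (M := 0) (by norm_num)
      (Nat.le_of_ble_eq_true num2)
    simpa using this

/-- second range -/
theorem lf_medium {a b : ℤ} (hb : 0 < b) (hb' : b < 2778720) :
    (645 : ℝ) / 10 ^ 10 ≤ |lf a b| := by
  refine farey_approx (p := 301994) (q := 190537) (p' := 4102173) (q' := 2588183) 1 (by norm_num)
    (by norm_num) (by norm_num) (by norm_num) ?_ ?_ (by norm_num) hb (by norm_num; exact hb')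
  · have := le_lf_of_pow (p := 301994) (q := 190537) (N := 10 ^ 10) (M := 645) (by norm_num)
      (Nat.le_of_ble_eq_true num3)
    norm_num at this ⊢
    linarith
  · have := lf_le_of_pow (p := 4102173) (q := 2588183) (N := 10 ^ 10) (M := 645) (by norm_num)
      (Nat.le_of_ble_eq_true num4)
    norm_num at this ⊢
    linarith

theorem lf_eq (K L : ℕ) :
    (K : ℝ) * log (4 / 3) - L * log (3 / 2) = lf (2 * K + L) (K + L) := by
  unfold lf
  have h1 : log (4 / 3 : ℝ) = 2 * log 2 - log 3 := by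
    rw [log_div (by norm_num) (by norm_num)]
    have : (4 : ℝ) = 2 ^ 2 := by norm_num
    rw [this, log_pow]; norm_num
  have h2 : log (3 / 2 : ℝ) = log 3 - log 2 := log_div (by norm_num) (by norm_num)
  rw [h1, h2]
  push_cast
  ring

end Pool.Agent.Lib.P99994e
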