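import Mathlib

/-!
The original Collatz permutation: `3n-2 ↦ 4n-3`, `3n-1 ↦ 4n-1`, `3n ↦ 2n`.
-/

set_option autoImplicit false

namespace Pool.Agent.Lib.P99994e

/-- The permutation `3n-2 ↦ 4n-3`, `3n-1 ↦ 4n-1`, `3n ↦ 2n` (of the positive integers). -/
def P (n : ℕ) : ℕ :=
  if n % 3 = 0 then 2 * n / 3
  else if n % 3 = 1 then (4 * n - 1) / 3 else (4 * n + 1) / 3

/-- For `x` on a finite cycle of `P`: the number of elements `≡ 3 (mod 6)` of the cycle. -/
noncomputable def peaksOf (x : ℕ) : ℕ :=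
  ((Finset.range (Function.minimalPeriod P x)).filter fun i => P^[i] x % 6 = 3).card

theorem P_mod_zero {n : ℕ} (h : n % 3 = 0) : 3 * P n = 2 * n := by
  unfold P; rw [if_pos h]; omega

theorem P_mod_one {n : ℕ} (h : n % 3 = 1) : 3 * P n + 1 = 4 * n := by
  unfold P; rw [if_neg (by omega), if_pos h]; omega

theorem P_mod_two {n : ℕ} (h : n % 3 = 2) : 3 * P n = 4 * n + 1 := by
  unfold P; rw [if_neg (by omega), if_neg (by omega)]; omega

theorem P_even_iff (n : ℕ) : P n % 2 = 0 ↔ n % 3 = 0 := by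
  rcases (by omega : n % 3 = 0 ∨ n % 3 = 1 ∨ n % 3 = 2) with h | h | h
  · have := P_mod_zero h; omega
  · have := P_mod_one h; omega
  · have := P_mod_two h; omega

theorem P_pos {n : ℕ} (h : 0 < n) : 0 < P n := by
  rcases (by omega : n % 3 = 0 ∨ n % 3 = 1 ∨ n % 3 = 2) with h' | h' | h'
  · have := P_mod_zero h'; omega
  · have := P_mod_one h'; omega
  · have := P_mod_two h'; omega

theorem P_inj : Function.Injective P := by
  intro a b hab
  have ha : a % 3 = 0 ∨ a % 3 = 1 ∨ a % 3 = 2 := by omega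
  have hb : b % 3 = 0 ∨ b % 3 = 1 ∨ b % 3 = 2 := by omega
  rcases ha with h | h | h <;> rcases hb with h' | h' | h'
  all_goals
    first
    | (have h1 := P_mod_zero h)
    | (have h1 := P_mod_one h)
    | (have h1 := P_mod_two h)
    first
    | (have h2 := P_mod_zero h')
    | (have h2 := P_mod_one h')
    | (have h2 := P_mod_two h')
    omega

end Pool.Agent.Lib.P99994e
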