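import Pool.Agent.Lib.P99994e.Defs

/-!
Finite cycles of the original Collatz permutation: the logarithmic cycle equation and the
bound of the linear form by the number of peaks.
-/

set_option autoImplicit false

namespace Pool.Agent.Lib.P99994e

open Finset Real

/-- `u` runs around a finite cycle in `n` steps, starting at its least element `X ≥ 2`. -/
structure Cyc (u : ℕ → ℕ) (n X : ℕ) : Prop where
  step : ∀ i, u (i + 1) = P (u i)
  per : u n = u 0
  base : u 0 = X
  two : 2 ≤ X
  least : ∀ i, X ≤ u i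

/-- number of downward steps (elements divisible by `3`). -/
def downs (u : ℕ → ℕ) (n : ℕ) : ℕ := ((range n).filter fun i => u i % 3 = 0).card

/-- number of upward steps. -/
def ups (u : ℕ → ℕ) (n : ℕ) : ℕ := ((range n).filter fun i => ¬ u i % 3 = 0).card

/-- number of peaks (elements `≡ 3 mod 6`). -/
def peaks (u : ℕ → ℕ) (n : ℕ) : ℕ := ((range n).filter fun i => u i % 6 = 3).card

theorem downs_add_ups (u : ℕ → ℕ) (n : ℕ) : downs u n + ups u n = n := by
  unfold downs ups
  rw [Finset.card_filter_add_card_filter_not]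
  simp

variable {u : ℕ → ℕ} {n X : ℕ}

theorem Cyc.shift (h : Cyc u n X) (g : ℕ → ℝ) :
    ∑ i ∈ range n, g (u (i + 1)) = ∑ i ∈ range n, g (u i) := by
  have h1 := Finset.sum_range_succ' (fun i => g (u i)) n
  have h2 := Finset.sum_range_succ (fun i => g (u i)) n
  rw [h2] at h1
  rw [h.per] at h1
  linarith

theorem Cyc.two_le (h : Cyc u n X) (i : ℕ) : 2 ≤ u i := le_trans h.two (h.least i)

/-- the error term of an upward step -/
noncomputable def err (x : ℕ) : ℝ := if x % 3 = 0 then 0 else 1 / (4 * (x : ℝ) - 1)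

/-- the main term of a step -/
noncomputable def mainTerm (x : ℕ) : ℝ := if x % 3 = 0 then - log (3 / 2) else log (4 / 3)

theorem log_step {x : ℕ} (hx : 2 ≤ x) :
    |log (P x : ℝ) - log (x : ℝ) - mainTerm x| ≤ err x := by
  have hx' : (2 : ℝ) ≤ x := by exact_mod_cast hx
  unfold mainTerm err
  rcases (by omega : x % 3 = 0 ∨ x % 3 = 1 ∨ x % 3 = 2) with h | h | h
  · rw [if_pos h, if_pos h]
    have h1 : (3 : ℝ) * P x = 2 * x := by exact_mod_cast P_mod_zero h
    have h2 : (P x : ℝ) = x / (3 / 2) := by linarith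
    rw [h2, log_div (by positivity) (by norm_num)]
    simp
  · rw [if_neg (by omega), if_neg (by omega)]
    have h1 : (3 : ℝ) * P x + 1 = 4 * x := by exact_mod_cast P_mod_one h
    have hp : (0 : ℝ) < 4 * x - 1 := by linarith
    have h2 : (x : ℝ) * (4 / 3) = P x * (1 + 1 / (4 * x - 1)) := by
      have : (P x : ℝ) = (4 * x - 1) / 3 := by linarith
      have hne : (4 * (x : ℝ) - 1) ≠ 0 := hp.ne'
      have e : (1 + 1 / (4 * (x : ℝ) - 1)) = 4 * x / (4 * x - 1) := by
        rw [eq_div_iff hne, add_mul, one_div, inv_mul_cancel₀ hne]; ring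
      rw [this, e, div_mul_div_comm, mul_comm (4 * (x : ℝ) - 1) (4 * x), ← div_mul_div_comm,
        div_self hne]
      ring
    have hP : (0 : ℝ) < P x := by linarith
    have h3 : log (x : ℝ) + log (4 / 3) = log (P x) + log (1 + 1 / (4 * (x : ℝ) - 1)) := by
      rw [← log_mul (by positivity) (by norm_num), h2, log_mul hP.ne' (by positivity)]
    have h4 : log (1 + 1 / (4 * (x : ℝ) - 1)) ≤ 1 / (4 * x - 1) := by
      have := log_le_sub_one_of_pos (show (0 : ℝ) < 1 + 1 / (4 * (x : ℝ) - 1) by positivity)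
      linarith
    have h5 : 0 ≤ log (1 + 1 / (4 * (x : ℝ) - 1)) := by
      apply log_nonneg
      have : 0 ≤ 1 / (4 * (x : ℝ) - 1) := by positivity
      linarith
    rw [abs_le]
    constructor <;> linarith
  · rw [if_neg (by omega), if_neg (by omega)]
    have h1 : (3 : ℝ) * P x = 4 * x + 1 := by exact_mod_cast P_mod_two h
    have h2 : (P x : ℝ) = x * (4 / 3) * (1 + 1 / (4 * x)) := by
      have : (P x : ℝ) = (4 * x + 1) / 3 := by linarith
      rw [this]; field_simp
    have h3 : log (P x : ℝ) = log (x : ℝ) + log (4 / 3) + log (1 + 1 / (4 * (x : ℝ))) := by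
      rw [h2, log_mul (by positivity) (by positivity), log_mul (by positivity) (by norm_num)]
    have h4 : log (1 + 1 / (4 * (x : ℝ))) ≤ 1 / (4 * x) := by
      have := log_le_sub_one_of_pos (show (0 : ℝ) < 1 + 1 / (4 * (x : ℝ)) by positivity)
      linarith
    have h5 : 0 ≤ log (1 + 1 / (4 * (x : ℝ))) := by
      apply log_nonneg
      have : 0 ≤ 1 / (4 * (x : ℝ)) := by positivity
      linarith
    have h6 : 1 / (4 * (x : ℝ)) ≤ 1 / (4 * x - 1) := by
      apply one_div_le_one_div_of_le <;> linarith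
    rw [abs_le]
    constructor <;> linarith

theorem sum_mainTerm (u : ℕ → ℕ) (n : ℕ) :
    ∑ i ∈ range n, mainTerm (u i) = ups u n * log (4 / 3) - downs u n * log (3 / 2) := by
  unfold mainTerm ups downs
  rw [Finset.sum_ite, Finset.sum_const, Finset.sum_const]
  simp only [nsmul_eq_mul]
  ring

theorem Cyc.form_le_err (h : Cyc u n X) :
    |(ups u n : ℝ) * log (4 / 3) - downs u n * log (3 / 2)| ≤ ∑ i ∈ range n, err (u i) := by
  rw [← sum_mainTerm]
  have h0 : ∑ i ∈ range n, (log (P (u i) : ℝ) - log (u i : ℝ)) = 0 := by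
    rw [Finset.sum_sub_distrib]
    have := h.shift (fun x => log (x : ℝ))
    simp only [h.step] at this
    linarith
  have h1 : ∑ i ∈ range n, mainTerm (u i) =
      - ∑ i ∈ range n, (log (P (u i) : ℝ) - log (u i : ℝ) - mainTerm (u i)) := by
    rw [Finset.sum_sub_distrib, h0]; ring
  rw [h1, abs_neg]
  refine (Finset.abs_sum_le_sum_abs _ _).trans (Finset.sum_le_sum fun i _ => ?_)
  exact log_step (h.two_le i)

/-- potential -/
noncomputable def pot (x : ℕ) : ℝ := 1 / ((x : ℝ) - 1)

theorem err_le {x : ℕ} (hx : 2 ≤ x) (h3 : x % 3 ≠ 0) : err x ≤ pot x - pot (P x) := by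
  have hx' : (2 : ℝ) ≤ x := by exact_mod_cast hx
  unfold err pot
  rw [if_neg h3]
  have h1 : (4 : ℝ) * x - 1 ≤ 3 * P x := by
    rcases (by omega : x % 3 = 1 ∨ x % 3 = 2) with h | h
    · have : (3 : ℝ) * P x + 1 = 4 * x := by exact_mod_cast P_mod_one h
      linarith
    · have : (3 : ℝ) * P x = 4 * x + 1 := by exact_mod_cast P_mod_two h
      linarith
  have h2 : 1 / ((P x : ℝ) - 1) ≤ 3 / (4 * ((x : ℝ) - 1)) := by
    rw [div_le_div_iff₀ (by linarith) (by linarith)]
    linarith
  have h3 : 1 / (4 * (x : ℝ) - 1) ≤ 1 / (4 * ((x : ℝ) - 1)) := by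
    apply one_div_le_one_div_of_le <;> linarith
  have h4 : 1 / ((x : ℝ) - 1) = 4 / (4 * ((x : ℝ) - 1)) := by
    rw [mul_comm, ← div_div]
    field_simp
  have h5 : 4 / (4 * ((x : ℝ) - 1)) - 3 / (4 * ((x : ℝ) - 1)) = 1 / (4 * ((x : ℝ) - 1)) := by
    rw [← sub_div]; norm_num
  rw [h4]
  linarith

theorem Cyc.err_sum_le (h : Cyc u n X) :
    ∑ i ∈ range n, err (u i) ≤ (peaks u n : ℝ) / ((X : ℝ) - 1) := by
  have hX : (2 : ℝ) ≤ X := by exact_mod_cast h.two
  have hpos : ∀ i, 0 < pot (u i) := by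
    intro i
    have : (2 : ℝ) ≤ u i := by exact_mod_cast h.two_le i
    unfold pot
    apply one_div_pos.mpr; linarith
  have hle : ∀ i, pot (u i) ≤ 1 / ((X : ℝ) - 1) := by
    intro i
    have : (X : ℝ) ≤ u i := by exact_mod_cast h.least i
    unfold pot
    apply one_div_le_one_div_of_le <;> linarith
  -- step 1
  have h1 : ∑ i ∈ range n, err (u i) ≤
      ∑ i ∈ range n, (if u i % 3 = 0 then 0 else (pot (u i) - pot (u (i + 1)))) := by
    refine Finset.sum_le_sum fun i _ => ?_
    by_cases h3 : u i % 3 = 0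
    · rw [if_pos h3]; unfold err; rw [if_pos h3]
    · rw [if_neg h3, h.step]; exact err_le (h.two_le i) h3
  have h2 : ∑ i ∈ range n, (pot (u i) - pot (u (i + 1))) = 0 := by
    rw [Finset.sum_sub_distrib, h.shift]; ring
  have h3 : ∑ i ∈ range n, (if u i % 3 = 0 then 0 else (pot (u i) - pot (u (i + 1)))) =
      ∑ i ∈ range n, (if u i % 3 = 0 then pot (u (i + 1)) else 0) -
        ∑ i ∈ range n, (if u i % 3 = 0 then pot (u i) else 0) := by
    have e : ∀ i ∈ range n, (if u i % 3 = 0 then 0 else (pot (u i) - pot (u (i + 1)))) =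
        ((if u i % 3 = 0 then pot (u (i + 1)) else 0) - (if u i % 3 = 0 then pot (u i) else 0)) +
          (pot (u i) - pot (u (i + 1))) := by
      intro i _
      split_ifs <;> ring
    rw [Finset.sum_congr rfl e, Finset.sum_add_distrib, h2, Finset.sum_sub_distrib, add_zero]
  have h4 : ∑ i ∈ range n, (if u i % 3 = 0 then pot (u (i + 1)) else 0) =
      ∑ i ∈ range n, (if u i % 2 = 0 then pot (u i) else 0) := by
    rw [← h.shift (fun x => if x % 2 = 0 then pot x else 0)]
    refine Finset.sum_congr rfl fun i _ => ?_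
    have := P_even_iff (u i)
    rw [← h.step] at this
    by_cases h5 : u i % 3 = 0
    · rw [if_pos h5, if_pos (this.mpr h5)]
    · rw [if_neg h5, if_neg (fun h6 => h5 (this.mp h6))]
  have hcount : ∑ i ∈ range n, (if u i % 3 = 0 then (1 : ℝ) else 0) =
      ∑ i ∈ range n, (if u i % 2 = 0 then (1 : ℝ) else 0) := by
    rw [← h.shift (fun x => if x % 2 = 0 then (1 : ℝ) else 0)]
    refine Finset.sum_congr rfl fun i _ => ?_
    have := P_even_iff (u i)
    rw [← h.step] at this
    by_cases h5 : u i % 3 = 0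
    · rw [if_pos h5, if_pos (this.mpr h5)]
    · rw [if_neg h5, if_neg (fun h6 => h5 (this.mp h6))]
  have hpk : (peaks u n : ℝ) = ∑ i ∈ range n, (if u i % 6 = 3 then (1 : ℝ) else 0) := by
    unfold peaks
    rw [Finset.sum_boole]
  -- termwise
  have h6 : ∀ i ∈ range n, (if u i % 2 = 0 then pot (u i) else 0) - (if u i % 3 = 0 then pot (u i) else 0)
      ≤ (1 / ((X : ℝ) - 1)) * ((if u i % 2 = 0 then (1 : ℝ) else 0) -
        (if u i % 3 = 0 then (1 : ℝ) else 0) + (if u i % 6 = 3 then (1 : ℝ) else 0)) := by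
    intro i _
    have e1 := hle i
    have e2 := (hpos i).le
    by_cases a : u i % 2 = 0 <;> by_cases b : u i % 3 = 0
    · rw [if_pos a, if_pos b, if_pos a, if_pos b, if_neg (by omega)]; simp
    · rw [if_pos a, if_neg b, if_pos a, if_neg b, if_neg (by omega)]; simp; simpa using e1
    · rw [if_neg a, if_pos b, if_neg a, if_pos b, if_pos (by omega)]; simp; exact e2
    · rw [if_neg a, if_neg b, if_neg a, if_neg b, if_neg (by omega)]; simp
  have h7 := Finset.sum_le_sum h6
  rw [Finset.sum_sub_distrib, ← Finset.mul_sum, Finset.sum_add_distrib, Finset.sum_sub_distrib,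
    hcount, ← hpk] at h7
  rw [h3, h4] at h1
  refine h1.trans (h7.trans (le_of_eq ?_))
  ring

theorem Cyc.form_le (h : Cyc u n X) :
    |(ups u n : ℝ) * log (4 / 3) - downs u n * log (3 / 2)| ≤ (peaks u n : ℝ) / ((X : ℝ) - 1) :=
  h.form_le_err.trans h.err_sum_le

end Pool.Agent.Lib.P99994e
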