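import Pool.Agent.Lib.P99994e.Main

/-!
From an arbitrary element of a finite cycle to its least element.
-/

set_option autoImplicit false

namespace Pool.Agent.Lib.P99994e

open Real Function

variable {u : ℕ → ℕ} {p X : ℕ}

/-- The explicit bound of the least element, in two cases. -/
theorem Cyc.cases (h : Cyc u p X) (hp : 0 < p) :
    ((p : ℝ) ≤ 5 / 2 * downs u p ∧ log X ≤ 3768 * (1 + log p)) ∨ log X ≤ 3 * (1 + log p) := by
  have hL1 := h.one_le_downs hp
  have hform := h.form_le
  have hsum := downs_add_ups u p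
  have ht := peaks_le_downs u p
  set L := downs u p with hL
  set K := ups u p with hK
  have hLp : L ≤ p := by omega
  have hX := h.X_sub_one
  have ht' : (peaks u p : ℝ) ≤ L := by exact_mod_cast ht
  have hL1' : (1 : ℝ) ≤ L := by exact_mod_cast hL1
  have hLp' : (L : ℝ) ≤ p := by exact_mod_cast hLp
  have hp1 : (1 : ℝ) ≤ p := hL1'.trans hLp'
  have hlp : 0 ≤ log (p : ℝ) := log_nonneg hp1
  have hlL : 0 ≤ log (L : ℝ) := log_nonneg hL1'
  have hlLp : log (L : ℝ) ≤ log p := log_le_log (by linarith) hLp'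
  have hΛ : |(K : ℝ) * log (4 / 3) - L * log (3 / 2)| * ((X : ℝ) - 1) ≤ L := by
    rw [le_div_iff₀ (by linarith)] at hform
    exact hform.trans ht'
  rcases le_total |(K : ℝ) * log (4 / 3) - L * log (3 / 2)| (1 / 9) with hs | hs
  · left
    have hKL := ups_le_of K L hs
    have hp25 : (p : ℝ) ≤ 5 / 2 * L := by
      have : 2 * p ≤ 5 * L := by omega
      have : (2 : ℝ) * p ≤ 5 * L := by exact_mod_cast this
      linarith
    refine ⟨hp25, ?_⟩
    set m := ⌈log (L : ℝ) * (10 / 3)⌉₊ with hm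
    have hm1 : log (L : ℝ) * (10 / 3) ≤ m := Nat.le_ceil _
    have hm2 : (m : ℝ) < log (L : ℝ) * (10 / 3) + 1 := Nat.ceil_lt_add_one (by positivity)
    have hLexp : (L : ℝ) ≤ exp (3 / 10 * ((200 + m : ℕ) : ℝ)) := by
      rw [← Real.log_le_iff_le_exp (by linarith)]
      push_cast
      linarith
    have hD := hD_of (decay (200 + m) (by omega)) hLexp
    have h1 := lin_form_exp (200 + m) K L (by omega) hL1 hKL hD
    have h5 : (L : ℝ) * (126 / 10000) * ((X : ℝ) - 1) ≤
        exp (1872 / 100 * ((200 + m : ℕ) : ℝ)) * L := by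
      calc (L : ℝ) * (126 / 10000) * ((X : ℝ) - 1)
          ≤ (exp (1872 / 100 * ((200 + m : ℕ) : ℝ)) *
              |(K : ℝ) * log (4 / 3) - L * log (3 / 2)|) * ((X : ℝ) - 1) :=
            mul_le_mul_of_nonneg_right h1 (by linarith)
        _ = exp (1872 / 100 * ((200 + m : ℕ) : ℝ)) *
              (|(K : ℝ) * log (4 / 3) - L * log (3 / 2)| * ((X : ℝ) - 1)) := by ring
        _ ≤ _ := mul_le_mul_of_nonneg_left hΛ (exp_pos _).le
    have h6 : (126 / 10000) * ((X : ℝ) - 1) ≤ exp (1872 / 100 * ((200 + m : ℕ) : ℝ)) := by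
      refine le_of_mul_le_mul_left ?_ (show (0 : ℝ) < L by linarith)
      linarith
    have h10 : (1 : ℝ) ≤ exp (1872 / 100 * ((200 + m : ℕ) : ℝ)) := one_le_exp (by positivity)
    have h11 : (X : ℝ) ≤ exp 5 * exp (1872 / 100 * ((200 + m : ℕ) : ℝ)) := by
      have h12 : (81 : ℝ) ≤ exp 5 := by
        have e : exp 5 = exp 1 ^ 5 := by rw [← exp_nat_mul]; norm_num
        rw [e]
        calc (81 : ℝ) ≤ 2.7182818283 ^ 5 := by norm_num
          _ ≤ exp 1 ^ 5 := pow_le_pow_left₀ (by norm_num) exp_one_gt_d9.le 5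
      nlinarith
    rw [← exp_add, ← Real.log_le_iff_le_exp (by linarith)] at h11
    push_cast at h11
    nlinarith
  · right
    have h1 : 1 / 9 * ((X : ℝ) - 1) ≤ L :=
      (mul_le_mul_of_nonneg_right hs (by linarith)).trans hΛ
    have h2 : (X : ℝ) ≤ 10 * p := by linarith
    have h3 := log_le_log (by linarith) h2
    rw [log_mul (by norm_num) (by linarith)] at h3
    have h4 : log (10 : ℝ) ≤ 3 := by
      rw [Real.log_le_iff_le_exp (by norm_num)]
      have e : exp 3 = exp 1 ^ 3 := by rw [← exp_nat_mul]; norm_num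
      rw [e]
      calc (10 : ℝ) ≤ 2.7182818283 ^ 3 := by norm_num
        _ ≤ exp 1 ^ 3 := pow_le_pow_left₀ (by norm_num) exp_one_gt_d9.le 3
    linarith

/-- The explicit bound of the number of elements by the number of peaks. -/
theorem Cyc.card_le_explicit (h : Cyc u p X) (hp : 0 < p) :
    (p : ℝ) ≤ 23000 * (8 / 5) ^ peaks u p * (1 + log p) := by
  have hdl := h.downs_le
  have h7 := h.le_seven
  have hL1 := h.one_le_downs hp
  have hX := h.X_sub_one
  have hc := h.cases hp
  have hp1 : (1 : ℝ) ≤ p := by exact_mod_cast hp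
  have hlp : 0 ≤ log (p : ℝ) := log_nonneg hp1
  set L := downs u p with hL
  have hL1' : (1 : ℝ) ≤ L := by exact_mod_cast hL1
  set A : ℝ := (8 / 5 : ℝ) ^ peaks u p with hA
  have hA1 : 1 ≤ A := one_le_pow₀ (by norm_num)
  have hlog2 := Real.log_two_gt_d9
  have h8 : (L : ℝ) * (693 / 1000) ≤ (L : ℝ) * log 2 :=
    mul_le_mul_of_nonneg_left (by linarith) (by linarith)
  have hlX : 0 ≤ log (X : ℝ) := log_nonneg (by linarith)
  have h9 : (L : ℝ) * (693 / 1000) ≤ log X * (5 / 3 * A) := by
    refine (h8.trans hdl).trans (mul_le_mul_of_nonneg_left (by linarith) hlX)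
  have hA0 : 0 ≤ 5 / 3 * A := by linarith
  have h15 : 0 ≤ (1 + log (p : ℝ)) * A := by positivity
  rcases hc with ⟨hp25, h13⟩ | h13
  · have h14 : log (X : ℝ) * (5 / 3 * A) ≤ (3768 * (1 + log p)) * (5 / 3 * A) :=
      mul_le_mul_of_nonneg_right h13 hA0
    nlinarith
  · have h14 : log (X : ℝ) * (5 / 3 * A) ≤ (3 * (1 + log p)) * (5 / 3 * A) :=
      mul_le_mul_of_nonneg_right h13 hA0
    nlinarith

theorem Cyc.logX_le (h : Cyc u p X) (hp : 0 < p) : log X ≤ 3768 * (1 + log p) := by
  have hp1 : (1 : ℝ) ≤ p := by exact_mod_cast hp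
  have hlp : 0 ≤ log (p : ℝ) := log_nonneg hp1
  rcases h.cases hp with ⟨_, h1⟩ | h1
  · exact h1
  · linarith

/-- solving the inequality -/
theorem solve {n : ℝ} {t : ℕ} (hn : 1 ≤ n) (h : n ≤ 23000 * (8 / 5) ^ t * (1 + log n)) :
    n ≤ 400000 * (t + 1) * (8 / 5) ^ t ∧ log n ≤ 13 + 3 / 2 * t := by
  set A : ℝ := (8 / 5 : ℝ) ^ t with hA
  have hA1 : 1 ≤ A := one_le_pow₀ (by norm_num)
  have ht : (0 : ℝ) ≤ t := Nat.cast_nonneg _
  set n₀ : ℝ := 400000 * (t + 1) * A with hn₀
  have hn₀pos : 0 < n₀ := by positivity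
  have hlog0 : log n₀ ≤ 13 + 3 / 2 * t := by
    rw [hn₀, hA, log_mul (by positivity) (by positivity), log_mul (by norm_num) (by positivity),
      log_pow]
    have h1 : log (400000 : ℝ) ≤ 13 := by
      rw [Real.log_le_iff_le_exp (by norm_num)]
      have e : exp 13 = exp 1 ^ 13 := by rw [← exp_nat_mul]; norm_num
      rw [e]
      calc (400000 : ℝ) ≤ 2.7182818283 ^ 13 := by norm_num
        _ ≤ exp 1 ^ 13 := pow_le_pow_left₀ (by norm_num) exp_one_gt_d9.le 13
    have h2 : log ((t : ℝ) + 1) ≤ t := by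
      have := log_le_sub_one_of_pos (show (0 : ℝ) < (t : ℝ) + 1 by positivity)
      linarith
    have h3 : log (8 / 5 : ℝ) ≤ 1 / 2 := by
      rw [Real.log_le_iff_le_exp (by norm_num)]
      have := quadratic_le_exp_of_nonneg (show (0 : ℝ) ≤ 1 / 2 by norm_num)
      refine le_trans ?_ this
      norm_num
    have h4 : (t : ℝ) * log (8 / 5) ≤ t * (1 / 2) := mul_le_mul_of_nonneg_left h3 ht
    linarith
  have main : n ≤ n₀ := by
    by_contra hcon
    push Not at hcon
    set w : ℝ := n / n₀ with hw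
    have hw1 : 1 < w := by rw [hw, one_lt_div hn₀pos]; exact hcon
    have hnw : n = w * n₀ := by rw [hw, div_mul_cancel₀ _ hn₀pos.ne']
    have h1 : log n ≤ (w - 1) + log n₀ := by
      rw [hnw, log_mul (by linarith) hn₀pos.ne']
      have := log_le_sub_one_of_pos (show (0 : ℝ) < w by linarith)
      linarith
    have h2 : w * (400000 * (t + 1)) * A ≤ 23000 * (w + (13 + 3 / 2 * t)) * A := by
      calc w * (400000 * (t + 1)) * A = n := by rw [hnw, hn₀]; ring
        _ ≤ 23000 * A * (1 + log n) := h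
        _ ≤ 23000 * A * (w + (13 + 3 / 2 * t)) :=
          mul_le_mul_of_nonneg_left (by linarith) (by positivity)
        _ = _ := by ring
    have h3 := le_of_mul_le_mul_right h2 (by linarith)
    nlinarith
  refine ⟨main, ?_⟩
  exact (log_le_log (by linarith) main).trans hlog0

theorem iterate_pos {x : ℕ} (hx : 0 < x) (i : ℕ) : 0 < P^[i] x := by
  induction i with
  | zero => exact hx
  | succ i ih => rw [iterate_succ_apply']; exact P_pos ih

theorem P_one : P 1 = 1 := by decide

/-- The cycle of a periodic point, run from its least element. -/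
theorem exists_cyc {x : ℕ} (hx : 0 < x) (hp : 0 < minimalPeriod P x) :
    x = 1 ∨ ∃ (u : ℕ → ℕ) (X i₀ m : ℕ), Cyc u (minimalPeriod P x) X ∧ P^[i₀] x = X ∧
      P^[m] X = x ∧ peaks u (minimalPeriod P x) = peaksOf x := by
  set p := minimalPeriod P x with hpdef
  have hper : P^[p] x = x := iterate_minimalPeriod
  set S : Set ℕ := Set.range fun i => P^[i] x with hS
  have hSne : S.Nonempty := Set.range_nonempty _
  obtain ⟨i₀, hi₀⟩ := Nat.sInf_mem hSne
  simp only at hi₀
  set X := sInf S with hXdef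
  have hXpos : 0 < X := by rw [← hi₀]; exact iterate_pos hx _
  have hback : P^[p * i₀ - i₀] X = x := by
    rw [← hi₀, ← iterate_add_apply]
    have : p * i₀ - i₀ + i₀ = p * i₀ := Nat.sub_add_cancel (Nat.le_mul_of_pos_left _ hp)
    rw [this, iterate_mul]
    exact iterate_fixed hper i₀
  rcases Nat.lt_or_ge X 2 with h2 | h2
  · left
    have hX1 : X = 1 := by omega
    rw [hX1, iterate_fixed P_one] at hback
    exact hback.symm
  · right
    refine ⟨fun i => P^[i + i₀] x, X, i₀, p * i₀ - i₀, ⟨?_, ?_, ?_, h2, ?_⟩, hi₀, hback, ?_⟩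
    · intro i
      show P^[i + 1 + i₀] x = P (P^[i + i₀] x)
      rw [← iterate_succ_apply' P (i + i₀) x]
      congr 1
      omega
    · show P^[p + i₀] x = P^[0 + i₀] x
      rw [Nat.zero_add, Nat.add_comm, iterate_add_apply, hper]
    · show P^[0 + i₀] x = X
      rw [Nat.zero_add]; exact hi₀
    · intro i
      exact Nat.sInf_le ⟨i + i₀, rfl⟩
    · have hperiodic : Function.Periodic (fun i => P^[i] x % 6 = 3) p := by
        intro i
        show (P^[i + p] x % 6 = 3) = (P^[i] x % 6 = 3)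
        rw [iterate_add_apply, hper]
      have h1 := Nat.filter_Ico_card_eq_of_periodic i₀ p (fun i => P^[i] x % 6 = 3) hperiodic
      have h2 := Nat.filter_Ico_card_eq_of_periodic 0 p (fun i => P^[i] x % 6 = 3) hperiodic
      unfold peaks peaksOf
      rw [← hpdef]
      have h3 : ((Finset.range p).filter fun i => P^[i] x % 6 = 3).card =
          ((Finset.Ico i₀ (i₀ + p)).filter fun i => P^[i] x % 6 = 3).card := by
        rw [h1, ← h2, Nat.zero_add, Finset.range_eq_Ico]
      rw [h3]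
      refine Finset.card_bij (fun i _ => i + i₀) ?_ ?_ ?_
      · intro i hi
        simp only [Finset.mem_filter, Finset.mem_range, Finset.mem_Ico] at hi ⊢
        exact ⟨by omega, hi.2⟩
      · intro a _ b _ hab
        omega
      · intro b hb
        simp only [Finset.mem_filter, Finset.mem_range, Finset.mem_Ico] at hb ⊢
        refine ⟨b - i₀, ⟨by omega, ?_⟩, by omega⟩
        rw [Nat.sub_add_cancel hb.1.1]
        exact hb.2

theorem least_bound : ∃ C : ℕ, ∀ x : ℕ, 0 < x → 0 < minimalPeriod P x →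
    ∃ i : ℕ, P^[i] x ≤ C * minimalPeriod P x ^ 12 := by
  obtain ⟨C, hC1, hC⟩ := Cyc.least_le
  refine ⟨C, fun x hx hp => ?_⟩
  rcases exists_cyc hx hp with h1 | ⟨u, X, i₀, m, h, h1, _, _⟩
  · refine ⟨0, ?_⟩
    rw [iterate_zero_apply]
    have := Nat.mul_le_mul hC1 (Nat.one_le_pow 12 _ hp)
    omega
  · exact ⟨i₀, h1 ▸ hC u _ X h hp⟩

theorem card_bound (x : ℕ) (hx : 0 < x) (hp : 0 < minimalPeriod P x) :
    (minimalPeriod P x : ℝ) ≤ 23000 * (8 / 5) ^ peaksOf x * (1 + log (minimalPeriod P x)) := by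
  rcases exists_cyc hx hp with h1 | ⟨u, X, i₀, m, h, _, _, h3⟩
  · have h2 : minimalPeriod P x = 1 := by
      rw [h1, minimalPeriod_eq_one_iff_isFixedPt]; exact P_one
    rw [h2]
    have : (1 : ℝ) ≤ (8 / 5) ^ peaksOf x := one_le_pow₀ (by norm_num)
    simp
    linarith
  · rw [← h3]; exact h.card_le_explicit hp

theorem P_le {x : ℕ} (hx : 0 < x) : (P x : ℝ) ≤ x * (5 / 3) := by
  have hx' : (1 : ℝ) ≤ x := by exact_mod_cast hx
  rcases (by omega : x % 3 = 0 ∨ x % 3 = 1 ∨ x % 3 = 2) with h | h | h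
  · have : (3 : ℝ) * P x = 2 * x := by exact_mod_cast P_mod_zero h
    linarith
  · have : (3 : ℝ) * P x + 1 = 4 * x := by exact_mod_cast P_mod_one h
    linarith
  · have : (3 : ℝ) * P x = 4 * x + 1 := by exact_mod_cast P_mod_two h
    linarith

theorem log_iterate_le {x : ℕ} (hx : 0 < x) (i : ℕ) :
    log (P^[i] x : ℝ) ≤ log x + i * (2 / 3) := by
  induction i with
  | zero => simp
  | succ i ih =>
    rw [iterate_succ_apply']
    have hpos := iterate_pos hx i
    have hpos' : (0 : ℝ) < P^[i] x := by exact_mod_cast hpos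
    have h1 := log_le_log (by exact_mod_cast P_pos hpos) (P_le hpos)
    rw [log_mul hpos'.ne' (by norm_num)] at h1
    have h2 : log (5 / 3 : ℝ) ≤ 2 / 3 := by
      have := log_le_sub_one_of_pos (show (0 : ℝ) < 5 / 3 by norm_num)
      linarith
    push_cast
    linarith

/-- Effective finiteness of the finite cycles with a bounded number of peaks. -/
theorem effective (x : ℕ) (hx : 0 < x) (hp : 0 < minimalPeriod P x) :
    (minimalPeriod P x : ℝ) ≤ 400000 * (peaksOf x + 1) * (8 / 5) ^ peaksOf x ∧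
      (x : ℝ) ≤ exp (400000 * (peaksOf x + 1) * (8 / 5) ^ peaksOf x) := by
  have hp1 : (1 : ℝ) ≤ minimalPeriod P x := by exact_mod_cast hp
  obtain ⟨h1, h2⟩ := solve hp1 (card_bound x hx hp)
  refine ⟨h1, ?_⟩
  have hx' : (0 : ℝ) < x := by exact_mod_cast hx
  have hA1 : (1 : ℝ) ≤ (8 / 5) ^ peaksOf x := one_le_pow₀ (by norm_num)
  have ht : (0 : ℝ) ≤ peaksOf x := Nat.cast_nonneg _
  rcases exists_cyc hx hp with h3 | ⟨u, X, i₀, m, h, h3, _, _⟩
  · have : (x : ℝ) = 1 := by exact_mod_cast h3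
    rw [this]
    exact one_le_exp (by positivity)
  · rw [← Real.log_le_iff_le_exp hx']
    have h4 := h.logX_le hp
    set n := minimalPeriod P x with hn
    have hper : P^[n] x = x := iterate_minimalPeriod
    have h5 : P^[n - i₀ % n] X = x := by
      rw [← h3, ← iterate_add_apply]
      have e : n - i₀ % n + i₀ = n * (i₀ / n + 1) := by
        have h1 := Nat.mod_add_div i₀ n
        have h2 := Nat.mod_lt i₀ hp
        rw [mul_add, mul_one]
        omega
      rw [e, iterate_mul]
      exact iterate_fixed hper _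
    have h6 := log_iterate_le (lt_of_lt_of_le (by norm_num) h.two) (n - i₀ % n)
    rw [h5] at h6
    have h7 : ((n - i₀ % n : ℕ) : ℝ) ≤ n := by exact_mod_cast Nat.sub_le _ _
    nlinarith

/-- The elements of the four known finite cycles. -/
def known : Finset ℕ :=
  {1, 2, 3, 4, 5, 7, 9, 6, 44, 59, 79, 105, 70, 93, 62, 83, 111, 74, 99, 66}

theorem known_closed : ∀ y ∈ known, P y ∈ known := by decide

theorem known_iterate {y : ℕ} (hy : y ∈ known) (m : ℕ) : P^[m] y ∈ known := by
  induction m with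
  | zero => exact hy
  | succ m ih => rw [iterate_succ_apply']; exact known_closed _ ih

theorem few_peaks (x : ℕ) (hx : 0 < x) (hp : 0 < minimalPeriod P x) (ht : peaksOf x ≤ 10) :
    x ∈ known := by
  rcases exists_cyc hx hp with h1 | ⟨u, X, i₀, m, h, _, h2, h3⟩
  · rw [h1]; decide
  · rw [← h2]
    apply known_iterate
    rcases h.ten hp (h3 ▸ ht) with h4 | h4 | h4 <;> rw [h4] <;> decide

end Pool.Agent.Lib.P99994e
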