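import Mathlib

/-!
Simultaneous Padé-type forms in `1, log (4/3), log (3/2)`.
-/

set_option autoImplicit false

namespace Pool.Agent.Lib.P99994e

open Polynomial Finset Real

/-- The polynomial `(x-3)^(2n) (4-x)^(4n) (6-x)^(3n)`. -/
noncomputable def poly (n : ℕ) : ℤ[X] :=
  (X - C 3) ^ (2 * n) * (C 4 - X) ^ (4 * n) * (C 6 - X) ^ (3 * n)

theorem natDegree_poly (n : ℕ) : (poly n).natDegree ≤ 9 * n := by
  have h1 : (X - C 3 : ℤ[X]).natDegree ≤ 1 := by
    refine (natDegree_sub_le _ _).trans ?_; simp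
  have h2 : (C 4 - X : ℤ[X]).natDegree ≤ 1 := by
    refine (natDegree_sub_le _ _).trans ?_; simp
  have h3 : (C 6 - X : ℤ[X]).natDegree ≤ 1 := by
    refine (natDegree_sub_le _ _).trans ?_; simp
  unfold poly
  refine natDegree_mul_le.trans ?_
  have g1 := natDegree_mul_le (p := (X - C 3 : ℤ[X]) ^ (2 * n)) (q := (C 4 - X) ^ (4 * n))
  have g2 := natDegree_pow_le_of_le (2 * n) h1
  have g3 := natDegree_pow_le_of_le (4 * n) h2
  have g4 := natDegree_pow_le_of_le (3 * n) h3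
  omega

theorem four_pow_dvd (n j : ℕ) (hj : j ≤ 5 * n) : (4 : ℤ) ^ j ∣ (poly n).coeff (5 * n - j) := by
  have h1 : (poly n).comp (C 4 * X) =
      C (4 ^ (5 * n)) * (C (2 ^ n) * ((C 4 * X - C 3) ^ (2 * n) * (1 - X) ^ (4 * n) *
        (C 3 - C 2 * X) ^ (3 * n))) := by
    have e1 : (C 4 - C 4 * X : ℤ[X]) = C 4 * (1 - X) := by ring
    have e2 : (C 6 - C 4 * X : ℤ[X]) = C 2 * (C 3 - C 2 * X) := by
      rw [mul_sub, ← mul_assoc, ← C_mul, ← C_mul]; norm_num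
    unfold poly
    simp only [mul_comp, pow_comp, sub_comp, X_comp, C_comp]
    rw [e1, e2, mul_pow, mul_pow, ← C_pow, ← C_pow]
    have e3 : (C ((4 : ℤ) ^ (4 * n)) * C (2 ^ (3 * n)) : ℤ[X]) = C (4 ^ (5 * n)) * C (2 ^ n) := by
      rw [← C_mul, ← C_mul]
      congr 1
      rw [show (4 : ℤ) = 2 ^ 2 by norm_num, ← pow_mul, ← pow_mul, ← pow_add, ← pow_add]
      congr 1; ring
    linear_combination ((C 4 * X - C 3) ^ (2 * n) * (1 - X) ^ (4 * n) *
        (C 3 - C 2 * X) ^ (3 * n)) * e3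
  have h2 := congrArg (fun p => p.coeff (5 * n - j)) h1
  simp only [comp_C_mul_X_coeff, coeff_C_mul] at h2
  set g := ((C 4 * X - C 3) ^ (2 * n) * (1 - X) ^ (4 * n) *
        (C 3 - C 2 * X : ℤ[X]) ^ (3 * n)).coeff (5 * n - j) with hg
  have h3 : (4 : ℤ) ^ (5 * n) = 4 ^ (5 * n - j) * 4 ^ j := by
    rw [← pow_add]; congr 1; omega
  rw [h3] at h2
  have h4 : (4 : ℤ) ^ (5 * n - j) * (poly n).coeff (5 * n - j) =
      4 ^ (5 * n - j) * (4 ^ j * (2 ^ n * g)) := by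
    rw [mul_comm, h2]; ring
  have h5 := mul_left_cancel₀ (by positivity) h4
  rw [h5]
  exact dvd_mul_right _ _

theorem three_pow_dvd (n j : ℕ) (hj : j ≤ 5 * n) : (3 : ℤ) ^ j ∣ (poly n).coeff (5 * n - j) := by
  have h1 : (poly n).comp (C 3 * X) =
      C (3 ^ (5 * n)) * ((X - 1) ^ (2 * n) * (C 4 - C 3 * X) ^ (4 * n) *
        (C 2 - X) ^ (3 * n)) := by
    have e1 : (C 3 * X - C 3 : ℤ[X]) = C 3 * (X - 1) := by ring
    have e2 : (C 6 - C 3 * X : ℤ[X]) = C 3 * (C 2 - X) := by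
      rw [mul_sub, ← C_mul]; norm_num
    unfold poly
    simp only [mul_comp, pow_comp, sub_comp, X_comp, C_comp]
    rw [e1, e2, mul_pow, mul_pow, ← C_pow, ← C_pow]
    have e3 : (C ((3 : ℤ) ^ (2 * n)) * C (3 ^ (3 * n)) : ℤ[X]) = C (3 ^ (5 * n)) := by
      rw [← C_mul]
      congr 1
      rw [← pow_add]
      congr 1; ring
    linear_combination ((X - 1) ^ (2 * n) * (C 4 - C 3 * X) ^ (4 * n) *
        (C 2 - X) ^ (3 * n)) * e3
  have h2 := congrArg (fun p => p.coeff (5 * n - j)) h1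
  simp only [comp_C_mul_X_coeff, coeff_C_mul] at h2
  set g := ((X - 1) ^ (2 * n) * (C 4 - C 3 * X) ^ (4 * n) *
        (C 2 - X : ℤ[X]) ^ (3 * n)).coeff (5 * n - j) with hg
  have h3 : (3 : ℤ) ^ (5 * n) = 3 ^ (5 * n - j) * 3 ^ j := by
    rw [← pow_add]; congr 1; omega
  rw [h3] at h2
  have h4 : (3 : ℤ) ^ (5 * n - j) * (poly n).coeff (5 * n - j) =
      3 ^ (5 * n - j) * (3 ^ j * g) := by
    rw [mul_comm, h2]; ring
  have h5 := mul_left_cancel₀ (by positivity) h4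
  rw [h5]
  exact dvd_mul_right _ _

theorem twelve_pow_dvd (n j : ℕ) (hj : j ≤ 5 * n) :
    (12 : ℤ) ^ j ∣ (poly n).coeff (5 * n - j) := by
  have h := IsCoprime.mul_dvd (IsCoprime.pow (m := j) (n := j)
    (Int.isCoprime_iff_gcd_eq_one.mpr (by norm_num : Int.gcd 4 3 = 1)))
    (four_pow_dvd n j hj) (three_pow_dvd n j hj)
  rwa [← mul_pow] at h

theorem dvd_lcmUpto {m N : ℕ} (h1 : 0 < m) (h2 : m ≤ N) : m ∣ Nat.lcmUpto N := by
  unfold Nat.lcmUpto
  exact Finset.dvd_lcm (f := id) (Finset.mem_Icc.mpr ⟨h1, h2⟩)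

theorem int_term (n a k : ℕ) (ha : a ∣ 12) (hk : k ≤ 9 * n) (hk5 : k ≠ 5 * n) :
    ∃ z : ℤ, (Nat.lcmUpto (5 * n) : ℝ) * ((poly n).coeff k : ℝ) *
      ((a : ℝ) ^ ((k : ℤ) - (5 * n : ℕ)) / (((k : ℤ) - (5 * n : ℕ) : ℤ) : ℝ)) = z := by
  have ha0 : (a : ℝ) ≠ 0 := by
    have : a ≠ 0 := by rintro rfl; simp at ha
    exact_mod_cast this
  rcases lt_or_gt_of_ne hk5 with hlt | hgt
  · obtain ⟨m, hm⟩ : ∃ m, 5 * n = k + m := ⟨5 * n - k, by omega⟩
    have hm0 : 0 < m := by omega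
    obtain ⟨d, hd⟩ := dvd_lcmUpto hm0 (by omega : m ≤ 5 * n)
    obtain ⟨e, he⟩ := twelve_pow_dvd n m (by omega)
    have hk' : 5 * n - m = k := by omega
    rw [hk'] at he
    obtain ⟨a', ha'⟩ := ha
    refine ⟨-(d * e * a' ^ m), ?_⟩
    rw [hd, he, hm]
    have e1 : ((k : ℤ) - ((k + m : ℕ) : ℤ)) = -(m : ℤ) := by push_cast; ring
    rw [e1, zpow_neg, zpow_natCast]
    have hm' : (m : ℝ) ≠ 0 := by exact_mod_cast hm0.ne'
    have e2 : (12 : ℝ) ^ m = a ^ m * a' ^ m := by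
      rw [← mul_pow]; congr 1; exact_mod_cast ha'
    push_cast
    rw [e2]
    field_simp
  · obtain ⟨m, hm⟩ : ∃ m, k = 5 * n + m := ⟨k - 5 * n, by omega⟩
    have hm0 : 0 < m := by omega
    obtain ⟨d, hd⟩ := dvd_lcmUpto hm0 (by omega : m ≤ 5 * n)
    refine ⟨d * (poly n).coeff k * a ^ m, ?_⟩
    rw [hd]
    have e1 : ((k : ℤ) - ((5 * n : ℕ) : ℤ)) = (m : ℤ) := by rw [hm]; push_cast; ring
    rw [e1, zpow_natCast]
    have hm' : (m : ℝ) ≠ 0 := by exact_mod_cast hm0.ne'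
    push_cast
    field_simp

/-- a primitive of `x ^ k / x ^ (5 n + 1)` -/
noncomputable def prim (n k : ℕ) (x : ℝ) : ℝ :=
  if k = 5 * n then log x else x ^ ((k : ℤ) - (5 * n : ℕ)) / (((k : ℤ) - (5 * n : ℕ) : ℤ) : ℝ)

theorem integral_term (n k : ℕ) {a b : ℝ} (ha : 0 < a) (hb : 0 < b) :
    ∫ x in a..b, x ^ k / x ^ (5 * n + 1) = prim n k b - prim n k a := by
  have h0 : (0 : ℝ) ∉ Set.uIcc a b := by
    intro h
    rw [Set.mem_uIcc] at h
    rcases h with h | h <;> linarith [h.1]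
  unfold prim
  by_cases hk : k = 5 * n
  · rw [if_pos hk, if_pos hk, ← Real.log_div hb.ne' ha.ne', ← integral_inv_of_pos ha hb]
    apply intervalIntegral.integral_congr
    intro x hx
    have hx0 : x ≠ 0 := fun h => h0 (h ▸ hx)
    simp only
    rw [hk, pow_succ]
    field_simp
  · rw [if_neg hk, if_neg hk, ← sub_div]
    have h1 : ((k : ℤ) - (5 * n : ℕ)) = ((k : ℤ) - (5 * n : ℕ) - 1) + 1 := by ring
    have h2 := integral_zpow (a := a) (b := b) (n := (k : ℤ) - (5 * n : ℕ) - 1)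
      (Or.inr ⟨by omega, h0⟩)
    have h3 : ((((k : ℤ) - (5 * n : ℕ) - 1 : ℤ) : ℝ) + 1) = (((k : ℤ) - (5 * n : ℕ) : ℤ) : ℝ) := by
      push_cast; ring
    rw [h3, ← h1] at h2
    rw [← h2]
    apply intervalIntegral.integral_congr
    intro x hx
    have hx0 : x ≠ 0 := fun h => h0 (h ▸ hx)
    simp only
    rw [← zpow_natCast, ← zpow_natCast, ← zpow_sub₀ hx0]
    congr 1
    push_cast
    ring

theorem eval_poly (n : ℕ) (x : ℝ) :
    (x - 3) ^ (2 * n) * (4 - x) ^ (4 * n) * (6 - x) ^ (3 * n) =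
      ∑ k ∈ range (9 * n + 1), ((poly n).coeff k : ℝ) * x ^ k := by
  have h := eval₂_eq_sum_range' (Int.castRingHom ℝ) (p := poly n) (n := 9 * n + 1)
    (Nat.lt_succ_of_le (natDegree_poly n)) x
  simp only [eq_intCast] at h
  rw [← h]
  unfold poly
  simp [eval₂_mul, eval₂_pow, eval₂_sub]

theorem integral_eq (n : ℕ) {a b : ℝ} (ha : 0 < a) (hb : 0 < b) :
    ∫ x in a..b, (x - 3) ^ (2 * n) * (4 - x) ^ (4 * n) * (6 - x) ^ (3 * n) / x ^ (5 * n + 1) =
      ∑ k ∈ range (9 * n + 1), ((poly n).coeff k : ℝ) * (prim n k b - prim n k a) := by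
  have h0 : (0 : ℝ) ∉ Set.uIcc a b := by
    intro h
    rw [Set.mem_uIcc] at h
    rcases h with h | h <;> linarith [h.1]
  have e : ∀ x : ℝ, (x - 3) ^ (2 * n) * (4 - x) ^ (4 * n) * (6 - x) ^ (3 * n) / x ^ (5 * n + 1) =
      ∑ k ∈ range (9 * n + 1), ((poly n).coeff k : ℝ) * (x ^ k / x ^ (5 * n + 1)) := by
    intro x
    rw [eval_poly, Finset.sum_div]
    refine Finset.sum_congr rfl fun k _ => ?_
    rw [mul_div_assoc]
  simp only [e]
  rw [intervalIntegral.integral_finsetSum]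
  · refine Finset.sum_congr rfl fun k _ => ?_
    rw [intervalIntegral.integral_const_mul, integral_term n k ha hb]
  · intro k _
    apply ContinuousOn.intervalIntegrable
    apply ContinuousOn.mul continuousOn_const
    apply ContinuousOn.div (continuousOn_pow k) (continuousOn_pow _)
    intro x hx
    exact pow_ne_zero _ (fun h => h0 (h ▸ hx))

/-- The form with endpoints `a, b` dividing `12`. -/
theorem form_eq (n a b : ℕ) (ha : a ∣ 12) (hb : b ∣ 12) :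
    ∃ z : ℤ, (Nat.lcmUpto (5 * n) : ℝ) *
      (∫ x in (a : ℝ)..b, (x - 3) ^ (2 * n) * (4 - x) ^ (4 * n) * (6 - x) ^ (3 * n) /
        x ^ (5 * n + 1)) =
      (Nat.lcmUpto (5 * n) : ℝ) * ((poly n).coeff (5 * n) : ℝ) * log (b / a) + z := by
  have ha0 : (0 : ℝ) < a := by
    have : 0 < a := Nat.pos_of_dvd_of_pos ha (by norm_num)
    exact_mod_cast this
  have hb0 : (0 : ℝ) < b := by
    have : 0 < b := Nat.pos_of_dvd_of_pos hb (by norm_num)
    exact_mod_cast this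
  rw [integral_eq n ha0 hb0]
  have hmem : 5 * n ∈ range (9 * n + 1) := Finset.mem_range.mpr (by omega)
  rw [← Finset.add_sum_erase _ _ hmem, mul_add]
  have h1 : prim n (5 * n) b - prim n (5 * n) a = log (b / a) := by
    unfold prim
    rw [if_pos rfl, if_pos rfl, Real.log_div hb0.ne' ha0.ne']
  rw [h1]
  have h2 : ∀ k ∈ (range (9 * n + 1)).erase (5 * n), ∃ z : ℤ,
      (Nat.lcmUpto (5 * n) : ℝ) * (((poly n).coeff k : ℝ) * (prim n k b - prim n k a)) = z := by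
    intro k hk
    rw [Finset.mem_erase, Finset.mem_range] at hk
    obtain ⟨z1, hz1⟩ := int_term n b k hb (by omega) hk.1
    obtain ⟨z2, hz2⟩ := int_term n a k ha (by omega) hk.1
    refine ⟨z1 - z2, ?_⟩
    unfold prim
    rw [if_neg hk.1, if_neg hk.1]
    push_cast at *
    rw [← hz1, ← hz2]
    ring
  choose! z hz using h2
  refine ⟨∑ k ∈ (range (9 * n + 1)).erase (5 * n), z k, ?_⟩
  rw [Finset.mul_sum, Finset.sum_congr rfl hz]
  push_cast
  ring

/-! ### The size of the middle coefficient -/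

/-- coefficientwise domination -/
def Dom (p q : ℤ[X]) : Prop := ∀ k, |p.coeff k| ≤ q.coeff k

theorem Dom.mul {p q p' q' : ℤ[X]} (h : Dom p q) (h' : Dom p' q') : Dom (p * p') (q * q') := by
  intro k
  rw [coeff_mul, coeff_mul]
  refine (Finset.abs_sum_le_sum_abs _ _).trans (Finset.sum_le_sum fun x _ => ?_)
  rw [abs_mul]
  exact mul_le_mul (h _) (h' _) (abs_nonneg _) ((abs_nonneg _).trans (h _))

theorem Dom.one : Dom 1 1 := by
  intro k
  rw [coeff_one]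
  split_ifs <;> simp

theorem Dom.pow {p q : ℤ[X]} (h : Dom p q) (m : ℕ) : Dom (p ^ m) (q ^ m) := by
  induction m with
  | zero => simpa using Dom.one
  | succ m ih => rw [pow_succ, pow_succ]; exact ih.mul h

theorem dom_sub (c : ℤ) (hc : 0 ≤ c) : Dom (X - C c) (X + C c) := by
  intro k
  rw [coeff_sub, coeff_add, coeff_X, coeff_C]
  split_ifs with h1 h2 h2 <;> simp_all [abs_of_nonneg]

theorem dom_sub' (c : ℤ) (hc : 0 ≤ c) : Dom (C c - X) (X + C c) := by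
  intro k
  rw [coeff_sub, coeff_add, coeff_X, coeff_C]
  split_ifs with h1 h2 h2 <;> simp_all [abs_of_nonneg]

theorem Dom.coeff_le {p q : ℤ[X]} (h : Dom p q) (k : ℕ) (r : ℤ) (hr : 0 ≤ r) :
    |p.coeff k| * r ^ k ≤ q.eval r := by
  rw [eval_eq_sum_range' (n := max (q.natDegree + 1) (k + 1)) (by
    exact lt_of_lt_of_le (Nat.lt_succ_self _) (le_max_left _ _))]
  refine (mul_le_mul_of_nonneg_right (h k) (pow_nonneg hr k)).trans ?_
  exact Finset.single_le_sum (f := fun i => q.coeff i * r ^ i)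
    (fun i _ => mul_nonneg ((abs_nonneg _).trans (h i)) (pow_nonneg hr i))
    (Finset.mem_range.mpr (lt_of_lt_of_le (Nat.lt_succ_self _) (le_max_right _ _)))

theorem coeff_bound (n : ℕ) : (|(poly n).coeff (5 * n)| : ℝ) ≤ 178846 ^ n := by
  have h1 : Dom (poly n) ((X + C 3) ^ (2 * n) * (X + C 4) ^ (4 * n) * (X + C 6) ^ (3 * n)) :=
    (((dom_sub 3 (by norm_num)).pow _).mul ((dom_sub' 4 (by norm_num)).pow _)).mul
      ((dom_sub' 6 (by norm_num)).pow _)
  have h2 := h1.coeff_le (5 * n) 5 (by norm_num)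
  simp only [eval_mul, eval_pow, eval_add, eval_X, eval_C] at h2
  have h3 : (|((poly n).coeff (5 * n) : ℝ)|) * 5 ^ (5 * n) ≤
      (5 + 3) ^ (2 * n) * (5 + 4) ^ (4 * n) * (5 + 6) ^ (3 * n) := by exact_mod_cast h2
  rw [pow_mul, pow_mul, pow_mul, pow_mul, ← mul_pow, ← mul_pow] at h3
  have h4 : (((5 : ℝ) + 3) ^ 2 * (5 + 4) ^ 4 * (5 + 6) ^ 3) ^ n ≤ 178846 ^ n * (5 ^ 5) ^ n := by
    rw [← mul_pow]
    exact pow_le_pow_left₀ (by positivity) (by norm_num) n
  exact le_of_mul_le_mul_right (h3.trans h4) (by positivity)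

end Pool.Agent.Lib.P99994e
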