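import Pool.Agent.Lib.PntAP.PntAP

/-!
The prime number theorem as an upper bound for `lcm(1,…,N)`.
-/

set_option autoImplicit false

namespace Pool.Agent.Lib.P99994e

open Finset Real Nat Filter Topology ArithmeticFunction

theorem psi_eq_summ (x : ℝ) :
    Chebyshev.psi x = Pool.Agent.PntAP.summ (vonMangoldt.residueClass (1 : ZMod 1)) x := by
  unfold Chebyshev.psi Pool.Agent.PntAP.summ
  have h : Finset.Ioc 0 ⌊x⌋₊ = Finset.Icc 1 ⌊x⌋₊ := by
    ext k; simp [Finset.mem_Ioc, Finset.mem_Icc, Nat.one_le_iff_ne_zero, Nat.pos_iff_ne_zero]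
  rw [h]
  refine Finset.sum_congr rfl fun k _ => ?_
  unfold vonMangoldt.residueClass
  rw [Set.indicator_of_mem]
  exact Subsingleton.elim _ _

theorem psi_tendsto : Tendsto (fun x : ℝ => Chebyshev.psi x / x) atTop (𝓝 1) := by
  have h := Pool.Agent.PntAP.psiAP_tendsto (q := 1) (a := 1) isUnit_one
  simp only [← psi_eq_summ] at h
  simpa using h

/-- For every `ε > 0` one has `log lcm(1,…,N) ≤ (1+ε) N` for all large `N`. -/
theorem log_lcm_le_eps {ε : ℝ} (hε : 0 < ε) :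
    ∃ N₀ : ℕ, ∀ N : ℕ, N₀ ≤ N → Real.log (lcmUpto N : ℕ) ≤ (1 + ε) * N := by
  have h1 := psi_tendsto.eventually (gt_mem_nhds (show (1 : ℝ) < 1 + ε by linarith))
  have h2 := (tendsto_natCast_atTop_atTop (R := ℝ)).eventually h1
  obtain ⟨N₀, h3⟩ := Filter.eventually_atTop.mp h2
  refine ⟨max N₀ 1, fun N hN => ?_⟩
  have h4 := h3 N (le_trans (le_max_left _ _) hN)
  have hN0 : (0 : ℝ) < N := by
    exact_mod_cast (lt_of_lt_of_le (by norm_num) (le_trans (le_max_right _ _) hN) : 0 < N)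
  rw [← Chebyshev.psi_eq_log_lcmUpto]
  exact ((div_lt_iff₀ hN0).mp h4).le

end Pool.Agent.Lib.P99994e
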