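import Pool.Agent.Lib.P99994e.Bounds
import Pool.Agent.Lib.P99994e.Cheb
import Pool.Agent.Lib.P99994e.Pnt

/-!
Lower bounds for `K log (4/3) - L log (3/2)`.
-/

set_option autoImplicit false
set_option exponentiation.threshold 2000

namespace Pool.Agent.Lib.P99994e

open Real

theorem exp_le_of_pow {a b : ℕ} {c : ℝ} (hb : 0 < b) (hc : 0 ≤ c)
    (h : (2.7182818286 : ℝ) ^ a ≤ c ^ b) : exp (a / b) ≤ c := by
  have h1 : exp ((a : ℝ) / b) ^ b = exp 1 ^ a := by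
    rw [← exp_nat_mul, ← exp_nat_mul, mul_one, mul_div_cancel₀]
    exact_mod_cast hb.ne'
  have h2 : exp 1 ^ a ≤ (2.7182818286 : ℝ) ^ a :=
    pow_le_pow_left₀ (exp_pos 1).le exp_one_lt_d9.le a
  exact le_of_pow_le_pow_left₀ hb.ne' hc (h1.le.trans (h2.trans h))

theorem le_exp_of_pow {a b : ℕ} {c : ℝ} (hb : 0 < b)
    (h : c ^ b ≤ (2.7182818283 : ℝ) ^ a) : c ≤ exp (a / b) := by
  have h1 : exp ((a : ℝ) / b) ^ b = exp 1 ^ a := by
    rw [← exp_nat_mul, ← exp_nat_mul, mul_one, mul_div_cancel₀]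
    exact_mod_cast hb.ne'
  have h2 : (2.7182818283 : ℝ) ^ a ≤ exp 1 ^ a :=
    pow_le_pow_left₀ (by norm_num) exp_one_gt_d9.le a
  exact le_of_pow_le_pow_left₀ hb.ne' (exp_pos _).le (h.trans (h2.trans h1.ge))

theorem form1 (n : ℕ) : ∃ z : ℤ, (Nat.lcmUpto (5 * n) : ℝ) * J1 n =
    (Nat.lcmUpto (5 * n) : ℝ) * ((poly n).coeff (5 * n) : ℝ) * log (4 / 3) + z := by
  have h := form_eq n 3 4 (by norm_num) (by norm_num)
  simpa [J1, integrand] using h

theorem form2 (n : ℕ) : ∃ z : ℤ, (Nat.lcmUpto (5 * n) : ℝ) * J2 n =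
    (Nat.lcmUpto (5 * n) : ℝ) * ((poly n).coeff (5 * n) : ℝ) * log (3 / 2) + z := by
  have h := form_eq n 4 6 (by norm_num) (by norm_num)
  have e : (((6 : ℕ) : ℝ) / ((4 : ℕ) : ℝ)) = 3 / 2 := by norm_num
  rw [e] at h
  simpa [J2, integrand] using h

theorem log43_le : 5 * log (4 / 3) ≤ 4 * log (3 / 2 : ℝ) := by
  have e1 : 5 * log (4 / 3 : ℝ) = log ((4 / 3 : ℝ) ^ 5) := by rw [log_pow]; norm_num
  have e2 : 4 * log (3 / 2 : ℝ) = log ((3 / 2 : ℝ) ^ 4) := by rw [log_pow]; norm_num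
  rw [e1, e2]
  exact log_le_log (by norm_num) (by norm_num)

theorem lin_form (n K L : ℕ) (hn : 25 ≤ n) (hL : 1 ≤ L) (hK : 2 * K ≤ 3 * L)
    (hD : 2 * (Nat.lcmUpto (5 * n) : ℝ) * L * log (3 / 2) * (138 / 100000 : ℝ) ^ n ≤ 1) :
    (L : ℝ) * (126 / 10000) * (134 / 100000 : ℝ) ^ n ≤
      178846 ^ n * |(K : ℝ) * log (4 / 3) - L * log (3 / 2)| := by
  obtain ⟨p1, e1⟩ := form1 n
  obtain ⟨p2, e2⟩ := form2 n
  have hD0 : (0 : ℝ) < (Nat.lcmUpto (5 * n) : ℝ) := by exact_mod_cast Nat.lcmUpto_pos _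
  set D : ℝ := (Nat.lcmUpto (5 * n) : ℝ) with hDdef
  set c : ℝ := ((poly n).coeff (5 * n) : ℝ) with hc
  set Λ : ℝ := (K : ℝ) * log (4 / 3) - L * log (3 / 2) with hΛ
  have hcb : |c| ≤ 178846 ^ n := coeff_bound n
  have hL0 : (1 : ℝ) ≤ L := by exact_mod_cast hL
  have hK0 : (0 : ℝ) ≤ K := Nat.cast_nonneg _
  have hK' : (K : ℝ) ≤ 3 / 2 * L := by
    have : (2 : ℝ) * K ≤ 3 * L := by exact_mod_cast hK
    linarith
  have hlog43 : 0 ≤ log (4 / 3 : ℝ) := log_nonneg (by norm_num)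
  have hlog43' : log (4 / 3 : ℝ) ≤ 1 / 3 := by
    have := log_le_sub_one_of_pos (show (0 : ℝ) < 4 / 3 by norm_num)
    linarith
  have hlog32 : 1 / 3 ≤ log (3 / 2 : ℝ) := by
    have := one_sub_inv_le_log_of_pos (show (0 : ℝ) < 3 / 2 by norm_num)
    norm_num at this ⊢
    linarith
  have hj1 := J1_le n
  have hj2 := J2_le n
  have hj2' := le_J2 n
  have hj1n := J1_nonneg n
  have hj2n := J2_nonneg n
  -- comparison of powers
  have hp1 : (115 / 100000 : ℝ) ^ n ≤ 5 / 6 * (138 / 100000 : ℝ) ^ n := by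
    have : (115 / 100000 : ℝ) ^ n = (5 / 6) ^ n * (138 / 100000 : ℝ) ^ n := by
      rw [← mul_pow]; norm_num
    rw [this]
    gcongr
    calc (5 / 6 : ℝ) ^ n ≤ (5 / 6) ^ 1 := pow_le_pow_of_le_one (by norm_num) (by norm_num) (by omega)
      _ = 5 / 6 := pow_one _
  have hp2 : (115 / 100000 : ℝ) ^ n ≤ 22 / 1000 * (134 / 100000 : ℝ) ^ n := by
    have : (115 / 100000 : ℝ) ^ n = (115 / 134) ^ n * (134 / 100000 : ℝ) ^ n := by
      rw [← mul_pow]; norm_num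
    rw [this]
    gcongr
    calc (115 / 134 : ℝ) ^ n ≤ (115 / 134) ^ 25 := pow_le_pow_of_le_one (by norm_num) (by norm_num) hn
      _ ≤ 22 / 1000 := by norm_num
  have hq138 : (0 : ℝ) < (138 / 100000 : ℝ) ^ n := by positivity
  have hq134 : (0 : ℝ) < (134 / 100000 : ℝ) ^ n := by positivity
  have hq115 : (0 : ℝ) < (115 / 100000 : ℝ) ^ n := by positivity
  have hq : (134 / 100000 : ℝ) ^ n ≤ (138 / 100000 : ℝ) ^ n := by
    gcongr; norm_num
  have hl520 : 253 / 10000 ≤ log (520 / 507 : ℝ) := by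
    have := le_log_one_add_of_nonneg (show (0 : ℝ) ≤ 13 / 507 by norm_num)
    have e : (1 : ℝ) + 13 / 507 = 520 / 507 := by norm_num
    rw [e] at this
    refine le_trans ?_ this
    norm_num
  -- bound of `K J₁`
  have hKJ : (K : ℝ) * J1 n ≤ 3 / 2 * L * (log (4 / 3) * (115 / 100000 : ℝ) ^ n) := by
    exact mul_le_mul hK' hj1 hj1n (by linarith)
  have hKJn : 0 ≤ (K : ℝ) * J1 n := mul_nonneg hK0 hj1n
  have hLJ : (L : ℝ) * J2 n ≤ L * (log (3 / 2) * (138 / 100000 : ℝ) ^ n) :=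
    mul_le_mul_of_nonneg_left hj2 (by linarith)
  have hLJn : 0 ≤ (L : ℝ) * J2 n := mul_nonneg (by linarith) hj2n
  set U : ℝ := L * J2 n - K * J1 n with hU
  have hUabs : |U| ≤ L * (log (3 / 2) * (138 / 100000 : ℝ) ^ n) := by
    rw [abs_le]
    constructor
    · have h1 : 3 / 2 * (L : ℝ) * (log (4 / 3) * (115 / 100000 : ℝ) ^ n) ≤
          L * (log (3 / 2) * (138 / 100000 : ℝ) ^ n) := by
        have h2 : log (4 / 3) * (115 / 100000 : ℝ) ^ n ≤
            (4 / 5 * log (3 / 2)) * (5 / 6 * (138 / 100000 : ℝ) ^ n) := by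
          apply mul_le_mul _ hp1 hq115.le (by linarith)
          have := log43_le
          linarith
        have h3 := mul_le_mul_of_nonneg_left h2 (show (0 : ℝ) ≤ 3 / 2 * L by linarith)
        refine h3.trans (le_of_eq ?_)
        ring
      linarith
    · linarith
  have hUlow : (L : ℝ) * (126 / 10000) * (134 / 100000 : ℝ) ^ n ≤ U := by
    have h1 : (L : ℝ) * (253 / 10000 * (134 / 100000 : ℝ) ^ n) ≤ L * J2 n := by
      apply mul_le_mul_of_nonneg_left _ (by linarith)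
      refine le_trans ?_ hj2'
      exact mul_le_mul_of_nonneg_right hl520 hq134.le
    have h2 : 3 / 2 * (L : ℝ) * (log (4 / 3) * (115 / 100000 : ℝ) ^ n) ≤
        3 / 2 * L * (1 / 3 * (22 / 1000 * (134 / 100000 : ℝ) ^ n)) := by
      apply mul_le_mul_of_nonneg_left _ (by linarith)
      exact mul_le_mul hlog43' hp2 hq115.le (by norm_num)
    have h3 : 0 ≤ (L : ℝ) * (134 / 100000 : ℝ) ^ n := by positivity
    nlinarith
  have hkey : D * c * Λ = -(D * U) - ((K * p1 - L * p2 : ℤ) : ℝ) := by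
    rw [hΛ, hU]
    push_cast
    linear_combination (-(K : ℝ)) * e1 + (L : ℝ) * e2
  have hmain : (L : ℝ) * (126 / 10000) * (134 / 100000 : ℝ) ^ n ≤ |c| * |Λ| := by
    by_cases hM : (K * p1 - L * p2 : ℤ) = 0
    · rw [hM] at hkey
      have h1 : c * Λ = - U := by
        have : D * (c * Λ) = D * (-U) := by
          rw [← mul_assoc, hkey]; push_cast; ring
        exact mul_left_cancel₀ hD0.ne' this
      rw [← abs_mul, h1, abs_neg]
      exact hUlow.trans (le_abs_self _)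
    · have h1 : (1 : ℝ) ≤ |((K * p1 - L * p2 : ℤ) : ℝ)| := by
        exact_mod_cast Int.one_le_abs hM
      have h2 : |((K * p1 - L * p2 : ℤ) : ℝ)| ≤ D * |c| * |Λ| + D * |U| := by
        have : ((K * p1 - L * p2 : ℤ) : ℝ) = -(D * c * Λ) + -(D * U) := by
          rw [hkey]; ring
        rw [this]
        refine (abs_add_le _ _).trans ?_
        rw [abs_neg, abs_neg, abs_mul, abs_mul, abs_mul, abs_of_pos hD0]
      have h3 : D * |U| ≤ D * (L * (log (3 / 2) * (138 / 100000 : ℝ) ^ n)) :=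
        mul_le_mul_of_nonneg_left hUabs hD0.le
      have h4 : D * (L * (log (3 / 2) * (138 / 100000 : ℝ) ^ n)) ≤ D * (|c| * |Λ|) := by
        nlinarith
      have h5 := le_of_mul_le_mul_left h4 hD0
      refine le_trans ?_ h5
      have h6 : (126 / 10000 : ℝ) * (134 / 100000 : ℝ) ^ n ≤
          log (3 / 2) * (138 / 100000 : ℝ) ^ n :=
        mul_le_mul (by linarith) hq hq134.le (by linarith)
      have h7 := mul_le_mul_of_nonneg_left h6 (show (0 : ℝ) ≤ L by linarith)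
      rw [← mul_assoc] at h7
      exact h7
  exact hmain.trans (mul_le_mul_of_nonneg_right hcb (abs_nonneg _))

theorem num138 : (138 / 100000 : ℝ) ≤ exp (-(658 / 100)) := by
  have h : exp ((329 : ℕ) / (50 : ℕ)) ≤ (100000 / 138 : ℝ) :=
    exp_le_of_pow (by norm_num) (by norm_num) (by norm_num)
  have e : (((329 : ℕ) : ℝ) / ((50 : ℕ) : ℝ)) = 658 / 100 := by norm_num
  rw [e] at h
  rw [exp_neg, le_inv_comm₀ (by norm_num) (exp_pos _)]
  refine h.trans (le_of_eq (by norm_num))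

theorem num1872 : (178846 : ℝ) ≤ exp (1872 / 100) * (134 / 100000) := by
  have h : (178846 * 100000 / 134 : ℝ) ≤ exp ((468 : ℕ) / (25 : ℕ)) :=
    le_exp_of_pow (by norm_num) (by norm_num)
  have e : (((468 : ℕ) : ℝ) / ((25 : ℕ) : ℝ)) = 1872 / 100 := by norm_num
  rw [e] at h
  linarith

/-- the exponential form of the lower bound -/
theorem lin_form_exp (n K L : ℕ) (hn : 25 ≤ n) (hL : 1 ≤ L) (hK : 2 * K ≤ 3 * L)
    (hD : 2 * (Nat.lcmUpto (5 * n) : ℝ) * L * log (3 / 2) * (138 / 100000 : ℝ) ^ n ≤ 1) :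
    (L : ℝ) * (126 / 10000) ≤
      exp (1872 / 100 * n) * |(K : ℝ) * log (4 / 3) - L * log (3 / 2)| := by
  have h := lin_form n K L hn hL hK hD
  have h1 : (178846 : ℝ) ^ n ≤ exp (1872 / 100 * n) * (134 / 100000) ^ n := by
    rw [mul_comm (1872 / 100 : ℝ), exp_nat_mul, ← mul_pow]
    exact pow_le_pow_left₀ (by norm_num) num1872 n
  have h2 := h.trans (mul_le_mul_of_nonneg_right h1 (abs_nonneg _))
  have hq : (0 : ℝ) < (134 / 100000 : ℝ) ^ n := by positivity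
  refine le_of_mul_le_mul_right ?_ hq
  linarith

theorem two_log_le_one : 2 * log (3 / 2 : ℝ) ≤ 1 := by
  have h : (3 / 2 : ℝ) ≤ exp (1 / 2) := by
    have := add_one_le_exp (1 / 2 : ℝ)
    linarith
  have := log_le_log (by norm_num) h
  rw [log_exp] at this
  linarith

theorem hD_of {n L : ℕ} {a : ℝ} (h1 : (Nat.lcmUpto (5 * n) : ℝ) * (138 / 100000 : ℝ) ^ n ≤ exp (-a))
    (h2 : (L : ℝ) ≤ exp a) :
    2 * (Nat.lcmUpto (5 * n) : ℝ) * L * log (3 / 2) * (138 / 100000 : ℝ) ^ n ≤ 1 := by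
  have hl : 0 ≤ log (3 / 2 : ℝ) := log_nonneg (by norm_num)
  have hL : (0 : ℝ) ≤ L := Nat.cast_nonneg _
  have h3 : (Nat.lcmUpto (5 * n) : ℝ) * (138 / 100000 : ℝ) ^ n * L ≤ 1 := by
    calc (Nat.lcmUpto (5 * n) : ℝ) * (138 / 100000 : ℝ) ^ n * L ≤ exp (-a) * exp a :=
          mul_le_mul h1 h2 hL (exp_pos _).le
      _ = 1 := by rw [← exp_add]; simp
  have h4 : 0 ≤ (Nat.lcmUpto (5 * n) : ℝ) * (138 / 100000 : ℝ) ^ n * L := by positivity
  have h5 := two_log_le_one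
  have e : 2 * (Nat.lcmUpto (5 * n) : ℝ) * L * log (3 / 2) * (138 / 100000 : ℝ) ^ n =
      (Nat.lcmUpto (5 * n) : ℝ) * (138 / 100000 : ℝ) ^ n * L * (2 * log (3 / 2)) := by ring
  rw [e]
  calc _ ≤ (1 : ℝ) * 1 := mul_le_mul h3 h5 (by positivity) (by norm_num)
    _ = 1 := by norm_num

theorem cA_le : cA ≤ 607 / 600 := by
  rw [cA_eq]
  have h : (432 : ℝ) ≤ exp ((607 : ℕ) / (100 : ℕ)) :=
    le_exp_of_pow (by norm_num) (by norm_num)
  have h2 := log_le_log (by norm_num) h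
  rw [log_exp] at h2
  have e : (((607 : ℕ) : ℝ) / ((100 : ℕ) : ℝ)) = 607 / 100 := by norm_num
  rw [e] at h2
  linarith

theorem log1000_le : log 1000 ≤ 691 / 100 := by
  have h : (1000 : ℝ) ≤ exp ((691 : ℕ) / (100 : ℕ)) :=
    le_exp_of_pow (by norm_num) (by norm_num)
  have h2 := log_le_log (by norm_num) h
  rw [log_exp] at h2
  have e : (((691 : ℕ) : ℝ) / ((100 : ℕ) : ℝ)) = 691 / 100 := by norm_num
  rw [e] at h2
  exact h2

/-- The explicit decay. -/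
theorem decay (n : ℕ) (hn : 200 ≤ n) :
    (Nat.lcmUpto (5 * n) : ℝ) * (138 / 100000 : ℝ) ^ n ≤ exp (-(3 / 10 * n)) := by
  have hn' : (200 : ℝ) ≤ n := by exact_mod_cast hn
  have h1 := log_lcm_le (5 * n) (by omega)
  set z : ℝ := √((n : ℝ) / 200) with hz
  have hz2 : z ^ 2 = n / 200 := Real.sq_sqrt (by positivity)
  have hz1 : 1 ≤ z := by
    rw [hz, Real.one_le_sqrt]
    rw [le_div_iff₀ (by norm_num)]; linarith
  have hl : log ((5 * n : ℕ) : ℝ) ≤ 691 / 100 * z := by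
    have e : ((5 * n : ℕ) : ℝ) = 1000 * z ^ 2 := by rw [hz2]; push_cast; ring
    rw [e, log_mul (by norm_num) (by positivity), log_pow]
    have h2 := log_le_sub_one_of_pos (show 0 < z by linarith)
    have h3 := log1000_le
    push_cast
    linarith
  have hl0 : 0 ≤ log ((5 * n : ℕ) : ℝ) := log_natCast_nonneg _
  have hl2 : log ((5 * n : ℕ) : ℝ) ^ 2 ≤ (691 / 100) ^ 2 * (n / 200) := by
    rw [← hz2, ← mul_pow]
    exact pow_le_pow_left₀ hl0 hl 2
  have hl1 : log ((5 * n : ℕ) : ℝ) ≤ 691 / 100 * (n / 200) := by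
    rw [← hz2]
    refine hl.trans ?_
    nlinarith
  have hc := cA_le
  have h4 : log (Nat.lcmUpto (5 * n) : ℝ) ≤ (628 / 100 : ℝ) * n := by
    push_cast at *
    nlinarith
  have hp : (0 : ℝ) < (Nat.lcmUpto (5 * n) : ℝ) := by exact_mod_cast Nat.lcmUpto_pos _
  have h5 : (Nat.lcmUpto (5 * n) : ℝ) ≤ exp (628 / 100 * n) := by
    rw [← Real.log_le_iff_le_exp hp]; exact h4
  have h6 : (138 / 100000 : ℝ) ^ n ≤ exp (-(658 / 100) * n) := by
    rw [mul_comm, exp_nat_mul]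
    exact pow_le_pow_left₀ (by norm_num) num138 n
  calc (Nat.lcmUpto (5 * n) : ℝ) * (138 / 100000 : ℝ) ^ n
      ≤ exp (628 / 100 * n) * exp (-(658 / 100) * n) :=
        mul_le_mul h5 h6 (by positivity) (exp_pos _).le
    _ = exp (-(3 / 10 * n)) := by rw [← exp_add]; congr 1; ring

/-- The asymptotic decay. -/
theorem decay_eps : ∃ n₀ : ℕ, ∀ n : ℕ, n₀ ≤ n →
    (Nat.lcmUpto (5 * n) : ℝ) * (138 / 100000 : ℝ) ^ n ≤ exp (-(157 / 100 * n)) := by
  obtain ⟨N₀, hN⟩ := log_lcm_le_eps (ε := 2 / 1000) (by norm_num)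
  refine ⟨N₀, fun n hn => ?_⟩
  have h4 := hN (5 * n) (by omega)
  have hp : (0 : ℝ) < (Nat.lcmUpto (5 * n) : ℝ) := by exact_mod_cast Nat.lcmUpto_pos _
  have h5 : (Nat.lcmUpto (5 * n) : ℝ) ≤ exp (501 / 100 * n) := by
    rw [← Real.log_le_iff_le_exp hp]
    refine h4.trans (le_of_eq ?_)
    push_cast; ring
  have h6 : (138 / 100000 : ℝ) ^ n ≤ exp (-(658 / 100) * n) := by
    rw [mul_comm, exp_nat_mul]
    exact pow_le_pow_left₀ (by norm_num) num138 n
  calc (Nat.lcmUpto (5 * n) : ℝ) * (138 / 100000 : ℝ) ^ n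
      ≤ exp (501 / 100 * n) * exp (-(658 / 100) * n) :=
        mul_le_mul h5 h6 (by positivity) (exp_pos _).le
    _ = exp (-(157 / 100 * n)) := by rw [← exp_add]; congr 1; ring

end Pool.Agent.Lib.P99994e
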