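import Pool.Agent.Lib.P99994e.LinForm
import Pool.Agent.Lib.P99994e.Conv
import Pool.Agent.Lib.P99994e.ChkAll

/-!
The conclusions for a finite cycle run from its least element `X ≥ 2`.
-/

set_option autoImplicit false

namespace Pool.Agent.Lib.P99994e

open Real

variable {u : ℕ → ℕ} {p X : ℕ}

theorem peaks_le_downs (u : ℕ → ℕ) (n : ℕ) : peaks u n ≤ downs u n := by
  unfold peaks downs
  apply Finset.card_le_card
  intro i hi
  rw [Finset.mem_filter] at hi ⊢
  exact ⟨hi.1, by omega⟩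

theorem Cyc.X_sub_one (h : Cyc u p X) : (1 : ℝ) ≤ (X : ℝ) - 1 := by
  have : (2 : ℝ) ≤ X := by exact_mod_cast h.two
  linarith

theorem log43_ge : 1 / 4 ≤ log (4 / 3 : ℝ) := by
  have := one_sub_inv_le_log_of_pos (show (0 : ℝ) < 4 / 3 by norm_num)
  norm_num at this ⊢
  linarith

theorem Cyc.le_seven (h : Cyc u p X) : (p : ℝ) ≤ 7 * downs u p := by
  have h1 := h.form_le
  have hX := h.X_sub_one
  have ht : (peaks u p : ℝ) ≤ downs u p := by exact_mod_cast peaks_le_downs u p
  have ht0 : (0 : ℝ) ≤ peaks u p := Nat.cast_nonneg _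
  have h2 : (peaks u p : ℝ) / ((X : ℝ) - 1) ≤ peaks u p := div_le_self ht0 hX
  have h3 := (le_abs_self _).trans h1
  have h4 := two_log_le_one
  have h5 := log43_ge
  have hK : (0 : ℝ) ≤ ups u p := Nat.cast_nonneg _
  have hL : (0 : ℝ) ≤ downs u p := Nat.cast_nonneg _
  have h6 : (p : ℝ) = downs u p + ups u p := by exact_mod_cast (downs_add_ups u p).symm
  nlinarith

theorem Cyc.one_le_downs (h : Cyc u p X) (hp : 0 < p) : 1 ≤ downs u p := by
  have h1 := h.le_seven
  by_contra hcon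
  have h0 : downs u p = 0 := by omega
  rw [h0] at h1
  have : (0 : ℝ) < p := by exact_mod_cast hp
  simp at h1
  linarith

theorem ups_le_of (K L : ℕ) (h : |(K : ℝ) * log (4 / 3) - L * log (3 / 2)| ≤ 1 / 9) :
    2 * K ≤ 3 * L := by
  by_contra hcon
  have h1 : 3 * L + 1 ≤ 2 * K := by omega
  have h2 : (3 : ℝ) * L + 1 ≤ 2 * K := by exact_mod_cast h1
  have h3 := (le_abs_self _).trans h
  have h4 := log43_ge
  have hL : (0 : ℝ) ≤ L := Nat.cast_nonneg _
  have h5 : 2 * log (3 / 2 : ℝ) ≤ 3 * log (4 / 3) := by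
    have e1 : 3 * log (4 / 3 : ℝ) = log ((4 / 3 : ℝ) ^ 3) := by rw [log_pow]; norm_num
    have e2 : 2 * log (3 / 2 : ℝ) = log ((3 / 2 : ℝ) ^ 2) := by rw [log_pow]; norm_num
    rw [e1, e2]
    exact log_le_log (by norm_num) (by norm_num)
  have h6 : ((3 : ℝ) * L + 1) * log (4 / 3) ≤ 2 * K * log (4 / 3) :=
    mul_le_mul_of_nonneg_right h2 (by linarith)
  have h7 := mul_le_mul_of_nonneg_left h5 hL
  nlinarith

/-- The least element of a finite cycle is polynomially bounded in the number of elements. -/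
theorem Cyc.least_le : ∃ C : ℕ, 1 ≤ C ∧ ∀ (u : ℕ → ℕ) (p X : ℕ), Cyc u p X → 0 < p →
    X ≤ C * p ^ 12 := by
  obtain ⟨n₀, hn₀⟩ := decay_eps
  set n₁ := max n₀ 25 with hn₁
  set E : ℝ := exp (1872 / 100 * (n₁ + 1)) with hE
  refine ⟨⌈1 + 80 * E⌉₊ + 10, by omega, fun u p X h hp => ?_⟩
  have hL1 := h.one_le_downs hp
  set L := downs u p with hL
  set K := ups u p with hK
  have hLp : L ≤ p := by have := downs_add_ups u p; omega
  have hX := h.X_sub_one
  have hform := h.form_le
  rw [← hK, ← hL] at hform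
  have ht : (peaks u p : ℝ) ≤ L := by exact_mod_cast peaks_le_downs u p
  have hL1' : (1 : ℝ) ≤ L := by exact_mod_cast hL1
  have hLp' : (L : ℝ) ≤ p := by exact_mod_cast hLp
  have hp1 : (1 : ℝ) ≤ p := hL1'.trans hLp'
  have hΛ : |(K : ℝ) * log (4 / 3) - L * log (3 / 2)| * ((X : ℝ) - 1) ≤ L := by
    rw [le_div_iff₀ (by linarith)] at hform
    exact hform.trans ht
  have hE0 : 0 < E := exp_pos _
  have hceil : 1 + 80 * E ≤ (⌈1 + 80 * E⌉₊ : ℝ) := Nat.le_ceil _
  have hp12 : (p : ℝ) ≤ p ^ 12 := by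
    calc (p : ℝ) = p ^ 1 := (pow_one _).symm
      _ ≤ p ^ 12 := pow_le_pow_right₀ hp1 (by norm_num)
  have goal : (X : ℝ) ≤ (1 + 80 * E + 10) * (p : ℝ) ^ 12 := by
    rcases le_total |(K : ℝ) * log (4 / 3) - L * log (3 / 2)| (1 / 9) with hs | hs
    · have hKL := ups_le_of K L hs
      have hlogL : 0 ≤ log (L : ℝ) := log_nonneg hL1'
      set m := ⌈log (L : ℝ) / (157 / 100)⌉₊ with hm
      have hm1 : log (L : ℝ) / (157 / 100) ≤ m := Nat.le_ceil _
      have hm2 : (m : ℝ) < log (L : ℝ) / (157 / 100) + 1 := Nat.ceil_lt_add_one (by positivity)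
      set n := n₁ + m with hn
      have hn0 : n₀ ≤ n := le_trans (le_max_left _ _) (Nat.le_add_right _ _)
      have hn25 : 25 ≤ n := le_trans (le_max_right _ _) (Nat.le_add_right _ _)
      have hnm : (m : ℝ) ≤ n := by
        rw [hn]; push_cast
        have : (0 : ℝ) ≤ n₁ := Nat.cast_nonneg _
        linarith
      have hLexp : (L : ℝ) ≤ exp (157 / 100 * n) := by
        rw [← Real.log_le_iff_le_exp (by linarith)]
        rw [div_le_iff₀ (by norm_num)] at hm1
        nlinarith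
      have hD := hD_of (hn₀ n hn0) hLexp
      have h1 := lin_form_exp n K L hn25 hL1 hKL hD
      have h2 : exp (1872 / 100 * n) ≤ E * (L : ℝ) ^ 12 := by
        have e1 : (L : ℝ) ^ 12 = exp (12 * log L) := by
          rw [show (12 : ℝ) = ((12 : ℕ) : ℝ) by norm_num, exp_nat_mul, exp_log (by linarith)]
        rw [e1, hE, ← exp_add]
        apply exp_le_exp.mpr
        rw [hn]
        push_cast
        have h3 : (1872 / 100 : ℝ) * m ≤ 1872 / 100 * (log (L : ℝ) / (157 / 100) + 1) := by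
          linarith
        have h4 : (1872 / 100 : ℝ) * (log (L : ℝ) / (157 / 100)) ≤ 12 * log L := by
          have : (1872 / 100 : ℝ) * (log (L : ℝ) / (157 / 100)) = (1872 / 157) * log L := by ring
          rw [this]
          exact mul_le_mul_of_nonneg_right (by norm_num) hlogL
        linarith
      have h5 : (L : ℝ) * (126 / 10000) * ((X : ℝ) - 1) ≤ exp (1872 / 100 * n) * L := by
        calc (L : ℝ) * (126 / 10000) * ((X : ℝ) - 1)
            ≤ (exp (1872 / 100 * n) * |(K : ℝ) * log (4 / 3) - L * log (3 / 2)|) * ((X : ℝ) - 1) :=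
              mul_le_mul_of_nonneg_right h1 (by linarith)
          _ = exp (1872 / 100 * n) * (|(K : ℝ) * log (4 / 3) - L * log (3 / 2)| * ((X : ℝ) - 1)) := by
              ring
          _ ≤ _ := mul_le_mul_of_nonneg_left hΛ (exp_pos _).le
      have h6 : (126 / 10000) * ((X : ℝ) - 1) ≤ exp (1872 / 100 * n) := by
        refine le_of_mul_le_mul_left ?_ (show (0 : ℝ) < L by linarith)
        linarith
      have h7 : (L : ℝ) ^ 12 ≤ (p : ℝ) ^ 12 := pow_le_pow_left₀ (by linarith) hLp' 12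
      have h8 : E * (L : ℝ) ^ 12 ≤ E * (p : ℝ) ^ 12 := mul_le_mul_of_nonneg_left h7 hE0.le
      nlinarith
    · have h1 : 1 / 9 * ((X : ℝ) - 1) ≤ L :=
        (mul_le_mul_of_nonneg_right hs (by linarith)).trans hΛ
      have h2 : 0 ≤ E * (p : ℝ) ^ 12 := by positivity
      nlinarith
  have goal' : (X : ℝ) ≤ ((⌈1 + 80 * E⌉₊ + 10 : ℕ) : ℝ) * (p : ℝ) ^ 12 := by
    refine goal.trans ?_
    push_cast
    have : (0 : ℝ) ≤ (p : ℝ) ^ 12 := by positivity
    exact mul_le_mul_of_nonneg_right (by linarith) this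
  exact_mod_cast goal'

/-- The number of elements is bounded in terms of the number of peaks. -/
theorem Cyc.card_le : ∃ C : ℝ, 1 ≤ C ∧ ∀ (u : ℕ → ℕ) (p X : ℕ), Cyc u p X → 0 < p →
    (p : ℝ) ≤ C * (8 / 5) ^ peaks u p * (1 + log p) := by
  obtain ⟨C, hC1, hC⟩ := Cyc.least_le
  have hC1' : (1 : ℝ) ≤ C := by exact_mod_cast hC1
  have hlC : 0 ≤ log (C : ℝ) := log_nonneg hC1'
  refine ⟨7 * (2 * (5 / 3 * (log C + 12))), by nlinarith, fun u p X h hp => ?_⟩
  have h1 := hC u p X h hp
  have h2 := h.downs_le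
  have h7 := h.le_seven
  have hp0 : (1 : ℝ) ≤ p := by exact_mod_cast hp
  have hlp : 0 ≤ log (p : ℝ) := log_nonneg hp0
  have hX2 : (2 : ℝ) ≤ X := by exact_mod_cast h.two
  have h3 : log (X : ℝ) ≤ (log C + 12) * (1 + log p) := by
    have h4 : (X : ℝ) ≤ C * (p : ℝ) ^ 12 := by exact_mod_cast h1
    have h5 := log_le_log (by linarith) h4
    rw [log_mul (by linarith) (by positivity), log_pow] at h5
    push_cast at h5
    nlinarith
  set A : ℝ := (8 / 5 : ℝ) ^ peaks u p with hA
  have hA1 : 1 ≤ A := one_le_pow₀ (by norm_num)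
  have hlog2 := Real.log_two_gt_d9
  have hL0 : (0 : ℝ) ≤ downs u p := Nat.cast_nonneg _
  have h8 : (downs u p : ℝ) * (1 / 2) ≤ (downs u p : ℝ) * log 2 :=
    mul_le_mul_of_nonneg_left (by linarith) hL0
  have h9 : log (X : ℝ) * (5 / 3 * (A - 1)) ≤ ((log C + 12) * (1 + log p)) * (5 / 3 * A) := by
    apply mul_le_mul h3 (by linarith) (by nlinarith) (by positivity)
  calc (p : ℝ) ≤ 7 * downs u p := h7
    _ ≤ 7 * (2 * (((log C + 12) * (1 + log p)) * (5 / 3 * A))) := by linarith
    _ = 7 * (2 * (5 / 3 * (log C + 12))) * A * (1 + log p) := by ring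

theorem Cyc.big (h : Cyc u p X) (hp : 0 < p) (ht : peaks u p ≤ 10) (hX : 233472 ≤ X) : False := by
  have hL1 := h.one_le_downs hp
  have hform := h.form_le
  have hdl := h.downs_le
  have hsum := downs_add_ups u p
  set L := downs u p with hL
  set K := ups u p with hK
  have hX' : (233472 : ℝ) ≤ X := by exact_mod_cast hX
  have hX1 : (0 : ℝ) < (X : ℝ) - 1 := by linarith
  have ht' : (peaks u p : ℝ) ≤ 10 := by exact_mod_cast ht
  have hΛ : |(K : ℝ) * log (4 / 3) - L * log (3 / 2)| * ((X : ℝ) - 1) ≤ 10 := by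
    rw [le_div_iff₀ hX1] at hform
    exact hform.trans ht'
  have habs := abs_nonneg ((K : ℝ) * log (4 / 3) - L * log (3 / 2))
  set Λ := |(K : ℝ) * log (4 / 3) - L * log (3 / 2)| with hΛdef
  have hlf : Λ = |lf (2 * K + L) (K + L)| := by rw [hΛdef, lf_eq]
  have hpb : ((K : ℤ) + L) = p := by rw [← hsum]; push_cast; ring
  -- first range
  have hp1 : 15601 ≤ p := by
    by_contra hcon
    have h1 := lf_small (a := 2 * K + L) (b := K + L) (by rw [hpb]; exact_mod_cast hp)
      (by rw [hpb]; exact_mod_cast (by omega : p < 15601))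
    rw [← hlf] at h1
    nlinarith
  have hKL : 2 * K ≤ 3 * L := by
    apply ups_le_of
    nlinarith
  have hL2 : 6241 ≤ L := by omega
  have hA : (5 / 3 * ((8 / 5 : ℝ) ^ peaks u p - 1)) ≤ 1816 / 10 := by
    have : (8 / 5 : ℝ) ^ peaks u p ≤ (8 / 5) ^ 10 := pow_le_pow_right₀ (by norm_num) ht
    have h2 : (5 / 3 * ((8 / 5 : ℝ) ^ 10 - 1)) ≤ 1816 / 10 := by norm_num
    linarith
  have hlX : 0 ≤ log (X : ℝ) := log_nonneg (by linarith)
  have hlog2 := Real.log_two_gt_d9
  have hmain : (L : ℝ) * (693 / 1000) ≤ log X * (1816 / 10) := by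
    have hL0 : (0 : ℝ) ≤ L := Nat.cast_nonneg _
    calc (L : ℝ) * (693 / 1000) ≤ L * log 2 := mul_le_mul_of_nonneg_left (by linarith) hL0
      _ ≤ _ := hdl
      _ ≤ _ := mul_le_mul_of_nonneg_left hA hlX
  -- second range
  have hX23 : (2.7 : ℝ) ^ 23 ≤ X := by
    have hL2' : (6241 : ℝ) ≤ L := by exact_mod_cast hL2
    have h1 : (23 : ℝ) ≤ log X := by linarith
    have h2 : exp 23 ≤ X := by
      rwa [Real.le_log_iff_exp_le (by linarith)] at h1
    refine le_trans ?_ h2
    have e : exp 23 = exp 1 ^ 23 := by rw [← exp_nat_mul]; norm_num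
    rw [e]
    have := Real.exp_one_gt_d9
    exact pow_le_pow_left₀ (by norm_num) (by linarith) 23
  have hp2 : 2778720 ≤ p := by
    by_contra hcon
    have h1 := lf_medium (a := 2 * K + L) (b := K + L) (by rw [hpb]; exact_mod_cast hp)
      (by rw [hpb]; exact_mod_cast (by omega : p < 2778720))
    rw [← hlf] at h1
    have h2 : (8000000000 : ℝ) ≤ (X : ℝ) - 1 := by
      have : (8000000001 : ℝ) ≤ 2.7 ^ 23 := by norm_num
      linarith
    nlinarith
  have hL3 : 1111488 ≤ L := by omega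
  have hL3' : (1111488 : ℝ) ≤ L := by exact_mod_cast hL3
  -- the conclusion for a given `n`
  have key : ∀ n : ℕ, 200 ≤ n → (L : ℝ) ≤ exp (3 / 10 * n) →
      (L : ℝ) * (693 / 1000) ≤ 3400 * n := by
    intro n hn hLn
    have hD := hD_of (decay n hn) hLn
    have h1 := lin_form_exp n K L (by omega) hL1 hKL hD
    rw [← hΛdef] at h1
    have h2 : (L : ℝ) * (126 / 10000) * ((X : ℝ) - 1) ≤ exp (1872 / 100 * n) * 10 := by
      calc (L : ℝ) * (126 / 10000) * ((X : ℝ) - 1)
          ≤ (exp (1872 / 100 * n) * Λ) * ((X : ℝ) - 1) :=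
            mul_le_mul_of_nonneg_right h1 hX1.le
        _ = exp (1872 / 100 * n) * (Λ * ((X : ℝ) - 1)) := by ring
        _ ≤ _ := mul_le_mul_of_nonneg_left hΛ (exp_pos _).le
    have h3 : 10000 * ((X : ℝ) - 1) ≤ exp (1872 / 100 * n) * 10 := by
      refine le_trans ?_ h2
      apply mul_le_mul_of_nonneg_right _ hX1.le
      linarith
    have h4 : (1 : ℝ) ≤ exp (1872 / 100 * n) := one_le_exp (by positivity)
    have h5 : (X : ℝ) ≤ exp (1872 / 100 * n) := by linarith
    have h6 : log (X : ℝ) ≤ 1872 / 100 * n := by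
      rw [Real.log_le_iff_le_exp (by linarith)]; exact h5
    have hn0 : (0 : ℝ) ≤ n := Nat.cast_nonneg _
    calc (L : ℝ) * (693 / 1000) ≤ log X * (1816 / 10) := hmain
      _ ≤ (1872 / 100 * n) * (1816 / 10) := mul_le_mul_of_nonneg_right h6 (by norm_num)
      _ ≤ 3400 * n := by nlinarith
  rcases le_total (log (L : ℝ)) 60 with hlL | hlL
  · have h1 := key 200 le_rfl (by
      rw [← Real.log_le_iff_le_exp (by linarith)]
      push_cast
      linarith)
    push_cast at h1
    linarith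
  · set y := log (L : ℝ) with hy
    have hLy : (L : ℝ) = exp y := by rw [hy, exp_log (by linarith)]
    set n := ⌈10 / 3 * y⌉₊ with hn
    have hn1 : 10 / 3 * y ≤ n := Nat.le_ceil _
    have hn2 : (n : ℝ) < 10 / 3 * y + 1 := Nat.ceil_lt_add_one (by linarith)
    have hn200 : 200 ≤ n := by
      have : (200 : ℝ) ≤ n := by linarith
      exact_mod_cast this
    have h1 := key n hn200 (by rw [hLy]; apply exp_le_exp.mpr; linarith)
    have h2 : exp 60 * (y / 60) ≤ exp y := by
      have e : exp y = exp 60 * exp (y - 60) := by rw [← exp_add]; congr 1; ring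
      rw [e]
      apply mul_le_mul_of_nonneg_left _ (exp_pos _).le
      have := add_one_le_exp (y - 60)
      linarith
    have h3 : (2 : ℝ) ^ 60 ≤ exp 60 := by
      have e : exp 60 = exp 1 ^ 60 := by rw [← exp_nat_mul]; norm_num
      rw [e]
      have := Real.exp_one_gt_d9
      exact pow_le_pow_left₀ (by norm_num) (by linarith) 60
    have h4 : (2 : ℝ) ^ 60 * (y / 60) ≤ L := by
      rw [hLy]
      refine le_trans ?_ h2
      exact mul_le_mul_of_nonneg_right h3 (by positivity)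
    norm_num at h4
    linarith

/-- A finite cycle with at most ten peaks has least element `2`, `4` or `44`. -/
theorem Cyc.ten (h : Cyc u p X) (hp : 0 < p) (ht : peaks u p ≤ 10) : X = 2 ∨ X = 4 ∨ X = 44 := by
  rcases lt_or_ge X 233472 with hX | hX
  · exact h.small hp ht hX
  · exact (h.big hp ht hX).elim

end Pool.Agent.Lib.P99994e
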