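import Pool.Agent.Lib.P99994e.Dyn

/-!
Walking backwards around a finite cycle from its least element: the number of downward steps is
bounded in terms of the least element and the number of peaks.
-/

set_option autoImplicit false

namespace Pool.Agent.Lib.P99994e

open Finset Real

theorem two_val {x : ℕ} (hx : 0 < x) : (padicValNat 2 x : ℝ) * log 2 ≤ log x := by
  have h1 : 2 ^ padicValNat 2 x ≤ x := Nat.le_of_dvd hx pow_padicValNat_dvd
  have h2 : ((2 : ℝ) ^ padicValNat 2 x) ≤ x := by exact_mod_cast h1
  have h3 := log_le_log (by positivity) h2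
  rwa [log_pow] at h3

theorem val_three_halves {x : ℕ} (hx : 0 < x) :
    log (x : ℝ) + (padicValNat 2 x : ℝ) * log (3 / 2) ≤ 8 / 5 * log x := by
  have h1 := two_val hx
  have h2 : 5 * log (3 / 2 : ℝ) ≤ 3 * log 2 := by
    have e1 : 5 * log (3 / 2 : ℝ) = log ((3 / 2 : ℝ) ^ 5) := by rw [log_pow]; norm_num
    have e2 : 3 * log (2 : ℝ) = log ((2 : ℝ) ^ 3) := by rw [log_pow]; norm_num
    rw [e1, e2]
    exact log_le_log (by norm_num) (by norm_num)
  have h3 : (0 : ℝ) ≤ padicValNat 2 x := Nat.cast_nonneg _
  nlinarith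

theorem val_even {x y : ℕ} (hx : 0 < x) (h : 2 * y = 3 * x) :
    (padicValNat 2 x : ℝ) = padicValNat 2 y + 1 := by
  have hy : y ≠ 0 := by omega
  have h1 : padicValNat 2 (2 * y) = padicValNat 2 (3 * x) := by rw [h]
  rw [padicValNat.mul (by norm_num) hy, padicValNat.mul (by norm_num) hx.ne'] at h1
  have h2 : padicValNat 2 2 = 1 := by simp
  have h3 : padicValNat 2 3 = 0 := by
    apply padicValNat.eq_zero_of_not_dvd; norm_num
  rw [h2, h3] at h1
  have : padicValNat 2 x = padicValNat 2 y + 1 := by omega
  exact_mod_cast this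

theorem val_odd {x : ℕ} (h : x % 2 = 1) : padicValNat 2 x = 0 := by
  apply padicValNat.eq_zero_of_not_dvd
  omega

/-- The invariant of the backward walk. -/
structure Inv (w D T : ℕ) (lX : ℝ) : Prop where
  a : w % 3 ≠ 0 → log (w : ℝ) ≤ (8 / 5 : ℝ) ^ T * lX
  b : log (w : ℝ) + (padicValNat 2 w : ℝ) * log (3 / 2) ≤ (8 / 5 : ℝ) ^ (T + 1) * lX
  c : w % 3 ≠ 0 → (D : ℝ) * log 2 ≤ lX * (5 / 3 * ((8 / 5 : ℝ) ^ T - 1))
  d : ((D : ℝ) + padicValNat 2 w) * log 2 ≤ lX * (5 / 3 * ((8 / 5 : ℝ) ^ (T + 1) - 1))

theorem Inv.of_not_three {w D T : ℕ} {lX : ℝ} (hw : 0 < w)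
    (a : log (w : ℝ) ≤ (8 / 5 : ℝ) ^ T * lX)
    (c : (D : ℝ) * log 2 ≤ lX * (5 / 3 * ((8 / 5 : ℝ) ^ T - 1))) : Inv w D T lX := by
  have h1 := val_three_halves hw
  have h2 := two_val hw
  refine ⟨fun _ => a, ?_, fun _ => c, ?_⟩
  · rw [pow_succ]; nlinarith
  · rw [pow_succ]; nlinarith

theorem Inv.step {w w' D T : ℕ} {lX : ℝ} (hw : 0 < w) (hw' : 0 < w') (hP : P w' = w)
    (h : Inv w D T lX) :
    Inv w' (D + if w % 2 = 0 then 1 else 0) (T + if w % 6 = 3 then 1 else 0) lX := by
  have hev := P_even_iff w'
  rw [hP] at hev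
  by_cases h2 : w % 2 = 0
  · -- a downward step `w' → w`
    have h3 : w' % 3 = 0 := hev.mp h2
    have h4 := P_mod_zero h3
    rw [hP] at h4
    rw [if_pos h2, if_neg (by omega)]
    have hv := val_even hw (show 2 * w' = 3 * w by omega)
    have hlog : log (w' : ℝ) = log (w : ℝ) + log (3 / 2) := by
      have : (w' : ℝ) = w * (3 / 2) := by
        have : (3 : ℝ) * w = 2 * w' := by exact_mod_cast h4
        linarith
      rw [this, log_mul (by exact_mod_cast hw.ne') (by norm_num)]
    refine ⟨fun h => absurd h3 h, ?_, fun h => absurd h3 h, ?_⟩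
    · have := h.b
      rw [hv] at this
      rw [hlog, add_zero]
      linarith
    · have := h.d
      rw [hv] at this
      rw [add_zero]
      push_cast
      linarith
  · have h3 : w' % 3 ≠ 0 := fun h => h2 (hev.mpr h)
    have hle : w' ≤ w := by
      rcases (by omega : w' % 3 = 1 ∨ w' % 3 = 2) with h' | h'
      · have := P_mod_one h'; omega
      · have := P_mod_two h'; omega
    have hlog : log (w' : ℝ) ≤ log (w : ℝ) :=
      log_le_log (by exact_mod_cast hw') (by exact_mod_cast hle)
    have hv := val_odd (show w % 2 = 1 by omega)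
    rw [if_neg h2, add_zero]
    by_cases h6 : w % 6 = 3
    · rw [if_pos h6]
      refine Inv.of_not_three hw' ?_ ?_
      · have := h.b
        rw [hv] at this
        simp at this
        linarith
      · have := h.d
        rw [hv] at this
        simpa using this
    · rw [if_neg h6, add_zero]
      have h7 : w % 3 ≠ 0 := by omega
      exact Inv.of_not_three hw' (hlog.trans (h.a h7)) (h.c h7)

variable {u : ℕ → ℕ} {n X : ℕ}

theorem Cyc.inv (h : Cyc u n X) (j : ℕ) (hj : j ≤ n) :
    Inv (u (n - j)) ((range j).filter fun i => u (n - i) % 2 = 0).card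
      ((range j).filter fun i => u (n - i) % 6 = 3).card (log X) := by
  have hpos : ∀ i, 0 < u i := fun i => lt_of_lt_of_le (by norm_num) (h.two_le i)
  induction j with
  | zero =>
    have h0 : u n = X := h.per.trans h.base
    refine Inv.of_not_three (by simpa using hpos n) ?_ ?_
    · simp [h0]
    · simp
  | succ j ih =>
    have ih := ih (by omega)
    have hP : P (u (n - (j + 1))) = u (n - j) := by
      rw [← h.step]; congr 1; omega
    have key := Inv.step (hpos _) (hpos _) hP ih
    have e1 : ((range (j + 1)).filter fun i => u (n - i) % 2 = 0).card =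
        ((range j).filter fun i => u (n - i) % 2 = 0).card + if u (n - j) % 2 = 0 then 1 else 0 := by
      rw [Finset.range_add_one, Finset.filter_insert]
      split_ifs with h1
      · rw [Finset.card_insert_of_notMem (by simp)]
      · rfl
    have e2 : ((range (j + 1)).filter fun i => u (n - i) % 6 = 3).card =
        ((range j).filter fun i => u (n - i) % 6 = 3).card + if u (n - j) % 6 = 3 then 1 else 0 := by
      rw [Finset.range_add_one, Finset.filter_insert]
      split_ifs with h1
      · rw [Finset.card_insert_of_notMem (by simp)]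
      · rfl
    rw [e1, e2]
    exact key

theorem Cyc.X_not_three (h : Cyc u n X) : X % 3 ≠ 0 := by
  intro h3
  have h1 := h.least 1
  rw [h.step 0, h.base] at h1
  have h2 := P_mod_zero h3
  have h3 := h.two
  omega

theorem Cyc.count_back (h : Cyc u n X) (p : ℕ → Prop) [DecidablePred p] :
    ((range n).filter fun i => p (u (n - i))).card = ((range n).filter fun i => p (u i)).card := by
  have h1 : (((range n).filter fun i => p (u (n - i))).card : ℝ) =
      (((range n).filter fun i => p (u i)).card : ℝ) := by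
    rw [← Finset.sum_boole, ← Finset.sum_boole]
    rw [← h.shift (fun x => if p x then (1 : ℝ) else 0)]
    rw [← Finset.sum_range_reflect]
    refine Finset.sum_congr rfl fun i hi => ?_
    have : n - (n - 1 - i) = i + 1 := by
      have := Finset.mem_range.mp hi
      omega
    rw [this]
  exact_mod_cast h1

theorem Cyc.downs_eq (h : Cyc u n X) :
    ((range n).filter fun i => u i % 2 = 0).card = downs u n := by
  unfold downs
  have h1 : (((range n).filter fun i => u i % 2 = 0).card : ℝ) =
      (((range n).filter fun i => u i % 3 = 0).card : ℝ) := by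
    rw [← Finset.sum_boole, ← Finset.sum_boole]
    rw [← h.shift (fun x => if x % 2 = 0 then (1 : ℝ) else 0)]
    refine Finset.sum_congr rfl fun i _ => ?_
    have := P_even_iff (u i)
    rw [← h.step] at this
    by_cases h5 : u i % 3 = 0
    · rw [if_pos h5, if_pos (this.mpr h5)]
    · rw [if_neg h5, if_neg (fun h6 => h5 (this.mp h6))]
  exact_mod_cast h1

/-- The number of downward steps of a finite cycle with least element `X`. -/
theorem Cyc.downs_le (h : Cyc u n X) :
    (downs u n : ℝ) * log 2 ≤ log X * (5 / 3 * ((8 / 5 : ℝ) ^ peaks u n - 1)) := by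
  have key := h.inv n le_rfl
  have h1 := key.c
  rw [Nat.sub_self, h.base] at h1
  have h2 := h1 h.X_not_three
  rw [h.count_back (fun x => x % 2 = 0), h.count_back (fun x => x % 6 = 3), h.downs_eq] at h2
  exact h2

end Pool.Agent.Lib.P99994e
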